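import Pool.Agent.H826.AEa

set_option autoImplicit false

/-!
# Almost all heights
-/

namespace Pool.Agent.H826

open Complex Filter Topology MeasureTheory Metric Set
open scoped ComplexConjugate ENNReal
open Pool.Agent.V11271.LI (Zr mm reflE)

lemma exp_neg_le {x : ℝ} (hx : 0 < x) : Real.exp (-x) ≤ 24 / x ^ 4 := by
  have h := Real.pow_div_factorial_le_exp x hx.le 4
  have h2 : x ^ 4 / 24 ≤ Real.exp x := by
    have e : ((Nat.factorial 4 : ℕ) : ℝ) = 24 := by norm_num [Nat.factorial]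
    rwa [e] at h
  rw [Real.exp_neg, le_div_iff₀ (by positivity), inv_mul_le_iff₀ (Real.exp_pos x)]
  linarith

/-- the main estimate for one window -/
theorem window {C1 C2 C3 : ℝ} (hC1 : 0 < C1) (hC2 : 0 < C2) (hC3 : 0 < C3)
    (hloc : ∀ t : ℝ, ∀ S : Finset Zr, ∑ ρ ∈ S, mm ρ / (1 + |t - ga ρ|) ^ (3 / 2 : ℝ) ≤ C1 * Real.log (|t| + 4))
    (hmass : ∀ T : ℝ, 4 ≤ T → ∑ ρ ∈ ZT T, mm ρ ≤ C2 * (T * Real.log T))
    (hdist : ∀ (T K : ℝ), 4 ≤ T → 0 < K →
      ∑ ρ ∈ (ZT T).filter (fun ρ => (K / Real.log T) ^ 2 < 3 * de ρ ^ 2), mm ρ * |de ρ| ≤ C3 * T * Real.exp (-(K / 4)))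
    {K lam : ℝ} {M m0 : ℕ} (hK : 0 < K) (hlam : 0 < lam) (hM : 1 ≤ M) (hm0 : 1 ≤ m0)
    (hcond : 3 * Real.exp 1 * K ^ 2 * M ≤ (lam * m0) ^ 2) :
    ∀ᶠ T : ℝ in atTop, volume {t : ℝ | t ∈ Icc T (2 * T) ∧ ∃ n : ℕ, m0 + M ≤ n ∧ lag n t < 0} ≤
      ENNReal.ofReal ((4 * C3 * Real.exp (-(K / 4)) + 2 * C2 * K / M + 2 * C2 * (∫ u, bump u) * lam) * T) := by
  have hm0' : (0:ℝ) < m0 := by exact_mod_cast hm0
  have hM' : (0:ℝ) < M := by exact_mod_cast hM
  obtain ⟨a, ha⟩ : ∃ a : ℝ, a = lam * m0 := ⟨_, rfl⟩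
  have ha0 : 0 < a := by rw [ha]; positivity
  have hJ : 0 ≤ ∫ u, bump u := integral_nonneg bump_nonneg
  -- large T
  have hlim : Tendsto (fun T : ℝ => 12 * C1 * a ^ (3 / 2 : ℝ) * (Real.log T) ^ (-(1 / 2) : ℝ)) atTop (𝓝 (12 * C1 * a ^ (3 / 2 : ℝ) * 0)) :=
    ((tendsto_rpow_neg_atTop (by norm_num)).comp Real.tendsto_log_atTop).const_mul _
  rw [mul_zero] at hlim
  filter_upwards [hlim.eventually_lt_const (u := (m0 : ℝ) / 2) (by positivity), eventually_ge_atTop 4,
    Real.tendsto_log_atTop.eventually_ge_atTop (K + 1)] with T hT1 hT4 hTK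
  obtain ⟨L, hL⟩ : ∃ L : ℝ, L = Real.log T := ⟨_, rfl⟩
  rw [← hL] at hT1 hTK
  have hL0 : 0 < L := by linarith
  have hT0 : 0 < T := by linarith
  obtain ⟨R, hR⟩ : ∃ R : ℝ, R = K / L := ⟨_, rfl⟩
  have hR0 : 0 < R := by rw [hR]; positivity
  have hR1 : R ≤ 1 := by
    rw [hR, div_le_one hL0]
    linarith
  obtain ⟨V, hV⟩ : ∃ V : ℝ, V = (a / L) ^ 2 := ⟨_, rfl⟩
  have hV0 : 0 < V := by rw [hV]; positivity
  have hsV : √V = a / L := by rw [hV, Real.sqrt_sq (by positivity)]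
  -- the three exceptional sets
  obtain ⟨E1, hE1⟩ : ∃ E1 : Set ℝ, E1 = ⋃ ρ ∈ (ZT T).filter (fun ρ => (K / Real.log T) ^ 2 < 3 * de ρ ^ 2),
    Icc (ga ρ - 2 * |de ρ|) (ga ρ + 2 * |de ρ|) := ⟨_, rfl⟩
  obtain ⟨f2, hf2⟩ : ∃ f2 : ℝ → ℝ, f2 = fun t => ∑ ρ ∈ ZT T, mm ρ * (Icc (ga ρ - R) (ga ρ + R)).indicator (fun _ => (1:ℝ)) t :=
    ⟨_, rfl⟩
  obtain ⟨f3, hf3⟩ : ∃ f3 : ℝ → ℝ, f3 = fun t => ∑ ρ ∈ ZT T, mm ρ * Real.log (1 + V / (t - ga ρ) ^ 2) := ⟨_, rfl⟩
  have hlognn : ∀ t g : ℝ, 0 ≤ Real.log (1 + V / (t - g) ^ 2) := by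
    intro t g
    apply Real.log_nonneg
    have : 0 ≤ V / (t - g) ^ 2 := by positivity
    linarith
  -- measure of the first
  have hmE1 : volume E1 ≤ ENNReal.ofReal (4 * C3 * Real.exp (-(K / 4)) * T) := by
    rw [hE1]
    refine (measure_biUnion_finset_le _ _).trans ?_
    have h1 : ∀ ρ : Zr, volume (Icc (ga ρ - 2 * |de ρ|) (ga ρ + 2 * |de ρ|)) ≤ ENNReal.ofReal (4 * (mm ρ * |de ρ|)) := by
      intro ρ
      rw [Real.volume_Icc]
      apply ENNReal.ofReal_le_ofReal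
      have h2 := Pool.Agent.V11271.LI.mm_one_le ρ
      have h3 := abs_nonneg (de ρ)
      nlinarith
    refine (Finset.sum_le_sum fun ρ _ => h1 ρ).trans ?_
    rw [← ENNReal.ofReal_sum_of_nonneg (fun ρ _ => by
      have := mm_nonneg ρ
      positivity)]
    apply ENNReal.ofReal_le_ofReal
    rw [← Finset.mul_sum]
    have := hdist T K hT4 hK
    nlinarith
  -- measure of the second
  have hi2 : Integrable f2 := by
    rw [hf2]
    refine integrable_finsetSum _ fun ρ _ => Integrable.const_mul ?_ _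
    rw [integrable_indicator_iff measurableSet_Icc]
    exact integrableOn_const (by simp)
  have h02 : ∀ x, 0 ≤ f2 x := by
    intro x
    rw [hf2]
    exact Finset.sum_nonneg fun ρ _ => mul_nonneg (mm_nonneg ρ) (indicator_nonneg (fun _ _ => zero_le_one) _)
  have hint2 : ∫ x, f2 x ≤ 2 * C2 * K * T := by
    rw [hf2, integral_finsetSum _ (fun ρ _ => by
      refine Integrable.const_mul ?_ _
      rw [integrable_indicator_iff measurableSet_Icc]
      exact integrableOn_const (by simp))]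
    have h1 : ∀ ρ ∈ ZT T, ∫ x, mm ρ * (Icc (ga ρ - R) (ga ρ + R)).indicator (fun _ => (1:ℝ)) x = mm ρ * (2 * R) := by
      intro ρ _
      rw [integral_const_mul, integral_indicator measurableSet_Icc]
      simp only [integral_const, smul_eq_mul, mul_one, measureReal_restrict_apply_univ]
      rw [Real.volume_real_Icc_of_le (by linarith)]
      ring
    rw [Finset.sum_congr rfl h1, ← Finset.sum_mul]
    have h2 := hmass T hT4
    rw [← hL] at h2
    calc (∑ ρ ∈ ZT T, mm ρ) * (2 * R) ≤ (C2 * (T * L)) * (2 * R) := by gcongr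
      _ = 2 * C2 * K * T := by
          rw [hR]
          field_simp
  have hmE2 := markov hi2 h02 hM' hint2
  -- measure of the third
  have hi3 : Integrable f3 := by
    rw [hf3]
    exact integrable_finsetSum _ fun ρ _ => (bump_scaled hV0 (ga ρ)).1.const_mul _
  have h03 : ∀ x, 0 ≤ f3 x := by
    intro x
    rw [hf3]
    exact Finset.sum_nonneg fun ρ _ => mul_nonneg (mm_nonneg ρ) (hlognn _ _)
  have hint3 : ∫ x, f3 x ≤ C2 * (∫ u, bump u) * a * T := by
    rw [hf3, integral_finsetSum _ (fun ρ _ => (bump_scaled hV0 (ga ρ)).1.const_mul _)]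
    have h1 : ∀ ρ ∈ ZT T, ∫ x, mm ρ * Real.log (1 + V / (x - ga ρ) ^ 2) = mm ρ * (√V * ∫ u, bump u) := by
      intro ρ _
      rw [integral_const_mul, (bump_scaled hV0 (ga ρ)).2]
    rw [Finset.sum_congr rfl h1, ← Finset.sum_mul, hsV]
    have h2 := hmass T hT4
    rw [← hL] at h2
    calc (∑ ρ ∈ ZT T, mm ρ) * (a / L * ∫ u, bump u) ≤ (C2 * (T * L)) * (a / L * ∫ u, bump u) := by gcongr
      _ = C2 * (∫ u, bump u) * a * T := by field_simp
  have hmE3 := markov hi3 h03 (a := (m0 : ℝ) / 2) (by positivity) hint3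
  -- inclusion
  have hsub : {t : ℝ | t ∈ Icc T (2 * T) ∧ ∃ n : ℕ, m0 + M ≤ n ∧ lag n t < 0} ⊆
      E1 ∪ {x | (M : ℝ) ≤ f2 x} ∪ {x | (m0 : ℝ) / 2 ≤ f3 x} := by
    rintro t ⟨⟨ht1, ht2⟩, n, hn, hneg⟩
    by_contra hcon
    simp only [mem_union, not_or, mem_ofPred_eq, not_le] at hcon
    obtain ⟨⟨hE1', hE2'⟩, hE3'⟩ := hcon
    apply absurd hneg
    push Not
    -- zeros close to t are in the window
    have hmem : ∀ ρ : Zr, |t - ga ρ| ≤ 1 → ρ ∈ ZT T := by
      intro ρ hρ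
      rw [mem_ZT]
      rw [abs_le] at hρ
      constructor <;> linarith [hρ.1, hρ.2]
    have hdehalf : ∀ ρ : Zr, |de ρ| ≤ 1 / 2 := by
      intro ρ
      have := ρ.2.2.1
      have := ρ.2.2.2
      unfold de
      rw [abs_le]
      constructor <;> linarith
    have hno : ∀ ρ : Zr, R ^ 2 < 3 * de ρ ^ 2 → 3 * de ρ ^ 2 ≤ (t - ga ρ) ^ 2 := by
      intro ρ hρ
      by_contra hlt
      push Not at hlt
      have h1 : |t - ga ρ| ≤ 2 * |de ρ| := by
        have h2 : (t - ga ρ) ^ 2 ≤ (2 * |de ρ|) ^ 2 := by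
          rw [mul_pow, sq_abs]
          nlinarith [sq_nonneg (de ρ)]
        exact abs_le_of_sq_le_sq h2 (by positivity)
      apply hE1'
      rw [hE1]
      simp only [mem_iUnion, Finset.mem_filter]
      refine ⟨ρ, ⟨hmem ρ (by linarith [hdehalf ρ]), by rw [← hL, ← hR]; exact hρ⟩, ?_⟩
      rw [abs_le] at h1
      constructor <;> linarith [h1.1, h1.2]
    have hr0 : 0 < Real.exp 1 / V := by positivity
    refine lag_nonneg (t := t) (R := R) (B := 2 * R ^ 2) (r := Real.exp 1 / V) (V := V) (m0 := m0) (M := M) hR0.le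
      (by positivity) hr0 hV0 hm0 ?_ ?_ ?_ ?_ ?_ n hn
    · intro ρ hρ
      rcases le_or_gt (3 * de ρ ^ 2) (R ^ 2) with h | h
      · have h1 : R ^ 2 ≤ (t - ga ρ) ^ 2 := by
          rw [← sq_abs (t - ga ρ)]
          gcongr
        linarith
      · exact hno ρ h
    · intro S hS
      have h1 : ∑ ρ ∈ S, mm ρ ≤ f2 t := by
        rw [hf2]
        have h2 : ∀ ρ ∈ S, mm ρ = mm ρ * (Icc (ga ρ - R) (ga ρ + R)).indicator (fun _ => (1:ℝ)) t := by
          intro ρ hρ
          have h3 := hS ρ hρ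
          rw [abs_le] at h3
          rw [indicator_of_mem (by constructor <;> linarith [h3.1, h3.2]), mul_one]
        rw [Finset.sum_congr rfl h2]
        refine Finset.sum_le_sum_of_subset_of_nonneg ?_ fun ρ _ _ =>
          mul_nonneg (mm_nonneg ρ) (indicator_nonneg (fun _ _ => zero_le_one) _)
        intro ρ hρ
        exact hmem ρ ((hS ρ hρ).trans hR1)
      linarith
    · intro ρ hρ
      have h1 : (t - ga ρ) ^ 2 ≤ R ^ 2 := by
        rw [← sq_abs (t - ga ρ)]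
        gcongr
      rcases le_or_gt (3 * de ρ ^ 2) (R ^ 2) with h | h
      · nlinarith [sq_nonneg (de ρ)]
      · have := hno ρ h
        nlinarith [sq_nonneg (de ρ)]
    · intro S hS
      have e1 : Real.log (Real.exp 1 / V * V) = 1 := by
        rw [div_mul_cancel₀ _ hV0.ne', Real.log_exp]
      rw [e1, mul_one]
      classical
      rw [← Finset.sum_filter_add_sum_filter_not S (fun ρ => ρ ∈ ZT T)]
      have h1 : ∑ ρ ∈ S.filter (fun ρ => ρ ∈ ZT T), mm ρ * Real.log (1 + V / (t - ga ρ) ^ 2) ≤ f3 t := by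
        rw [hf3]
        refine Finset.sum_le_sum_of_subset_of_nonneg ?_ fun ρ _ _ => mul_nonneg (mm_nonneg ρ) (hlognn _ _)
        intro ρ hρ
        exact (Finset.mem_filter.1 hρ).2
      have h2 : ∑ ρ ∈ S.filter (fun ρ => ¬ ρ ∈ ZT T), mm ρ * Real.log (1 + V / (t - ga ρ) ^ 2) ≤ m0 / 2 := by
        have h3 : ∀ ρ ∈ S.filter (fun ρ => ¬ ρ ∈ ZT T), mm ρ * Real.log (1 + V / (t - ga ρ) ^ 2) ≤
            (6 * V ^ (3 / 4 : ℝ)) * (mm ρ / (1 + |t - ga ρ|) ^ (3 / 2 : ℝ)) := by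
          intro ρ hρ
          have h4 := (Finset.mem_filter.1 hρ).2
          have h5 : 1 < |t - ga ρ| := by
            by_contra h6
            exact h4 (hmem ρ (not_lt.1 h6))
          have h7 := far_term hV0.le h5
          calc mm ρ * Real.log (1 + V / (t - ga ρ) ^ 2) ≤
                mm ρ * (6 * V ^ (3 / 4 : ℝ) * (1 / (1 + |t - ga ρ|) ^ (3 / 2 : ℝ))) :=
                mul_le_mul_of_nonneg_left h7 (mm_nonneg ρ)
            _ = _ := by ring
        refine (Finset.sum_le_sum h3).trans ?_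
        rw [← Finset.mul_sum]
        have h8 := hloc t (S.filter (fun ρ => ¬ ρ ∈ ZT T))
        have h9 : Real.log (|t| + 4) ≤ 2 * L := by
          have : 2 * L = Real.log (T ^ 2) := by rw [hL, Real.log_pow]; push_cast; ring
          rw [this, abs_of_nonneg (by linarith)]
          apply Real.log_le_log (by linarith)
          nlinarith
        have h10 : V ^ (3 / 4 : ℝ) = (a / L) ^ (3 / 2 : ℝ) := by
          rw [hV, ← Real.rpow_natCast, ← Real.rpow_mul (by positivity)]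
          norm_num
        have h11 : (a / L) ^ (3 / 2 : ℝ) * L = a ^ (3 / 2 : ℝ) * L ^ (-(1 / 2) : ℝ) := by
          rw [Real.div_rpow ha0.le hL0.le, div_mul_eq_mul_div, div_eq_mul_inv, ← Real.rpow_neg hL0.le]
          have h12 : L * L ^ (-(3 / 2) : ℝ) = L ^ (-(1 / 2) : ℝ) := by
            conv_lhs => rw [← Real.rpow_one L]
            rw [← Real.rpow_mul hL0.le, ← Real.rpow_add hL0]
            norm_num
          rw [mul_assoc, h12]
        calc 6 * V ^ (3 / 4 : ℝ) * ∑ ρ ∈ S.filter (fun ρ => ¬ ρ ∈ ZT T), mm ρ / (1 + |t - ga ρ|) ^ (3 / 2 : ℝ)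
            ≤ 6 * V ^ (3 / 4 : ℝ) * (C1 * (2 * L)) := by
              gcongr
              exact h8.trans (mul_le_mul_of_nonneg_left h9 hC1.le)
          _ = 12 * C1 * ((a / L) ^ (3 / 2 : ℝ) * L) := by rw [h10]; ring
          _ = 12 * C1 * a ^ (3 / 2 : ℝ) * L ^ (-(1 / 2) : ℝ) := by rw [h11]; ring
          _ ≤ m0 / 2 := hT1.le
      linarith
    · have h1 : 2 * R ^ 2 * (Real.exp 1 / V) * M ≤ 2 / 3 := by
        rw [hR, hV]
        have h2 : 2 * (K / L) ^ 2 * (Real.exp 1 / (a / L) ^ 2) * M = 2 * (Real.exp 1 * K ^ 2 * M) / a ^ 2 := by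
          field_simp
        rw [h2, div_le_iff₀ (by positivity)]
        rw [← ha] at hcond
        nlinarith
      calc (1 + 2 * R ^ 2 * (Real.exp 1 / V)) ^ M ≤ Real.exp (2 * R ^ 2 * (Real.exp 1 / V)) ^ M := by
            have := Real.add_one_le_exp (2 * R ^ 2 * (Real.exp 1 / V))
            refine pow_le_pow_left₀ (by positivity) (by linarith) _
        _ = Real.exp (2 * R ^ 2 * (Real.exp 1 / V) * M) := by
            rw [← Real.exp_nat_mul]
            congr 1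
            ring
        _ ≤ Real.exp (2 / 3) := Real.exp_le_exp.2 h1
        _ ≤ 2 := by
            rw [← Real.le_log_iff_exp_le (by norm_num)]
            have := Real.log_two_gt_d9
            linarith
  refine (measure_mono hsub).trans ((measure_union_le _ _).trans ?_)
  refine (add_le_add_left (measure_union_le _ _) _).trans ?_
  refine (add_le_add (add_le_add hmE1 hmE2) hmE3).trans ?_
  rw [← ENNReal.ofReal_add (by positivity) (by positivity), ← ENNReal.ofReal_add (by positivity) (by positivity)]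
  apply ENNReal.ofReal_le_ofReal
  apply le_of_eq
  rw [ha]
  field_simp

end Pool.Agent.H826
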