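import Pool.Agent.H826.AEb

set_option autoImplicit false

/-!
# Almost all heights, with a rate
-/

namespace Pool.Agent.H826

open Complex Filter Topology MeasureTheory Metric Set
open scoped ComplexConjugate ENNReal
open Pool.Agent.V11271.LI (Zr mm reflE)

/-- the proportion of the heights at which one of the expressions of order at least `n` is negative -/
theorem ae_rate : ∃ C : ℝ, 0 < C ∧ ∀ n : ℕ, 1 ≤ n → ∀ᶠ T : ℝ in atTop,
    volume {t : ℝ | t ∈ Icc T (2 * T) ∧ ∃ m : ℕ, n ≤ m ∧ lag m t < 0} ≤ ENNReal.ofReal (C * T / √n) := by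
  obtain ⟨C1, hC1, hloc⟩ := loc_sum
  obtain ⟨C2, hC2, hmass⟩ := mass_ZT
  obtain ⟨C3, hC3, hdist⟩ := dist_mass
  obtain ⟨J, hJ⟩ : ∃ J : ℝ, J = ∫ u, bump u := ⟨_, rfl⟩
  have hJ0 : 0 ≤ J := by rw [hJ]; exact integral_nonneg bump_nonneg
  obtain ⟨A2, hA2⟩ : ∃ A2 : ℝ, A2 = 73728 * (C3 + 1) := ⟨_, rfl⟩
  have hA2pos : 1 ≤ A2 := by rw [hA2]; linarith
  obtain ⟨AM, hAM⟩ : ∃ AM : ℝ, AM = 6 * C2 * A2 := ⟨_, rfl⟩
  have hAM0 : 0 < AM := by rw [hAM]; positivity
  obtain ⟨l0, hl0⟩ : ∃ l0 : ℝ, l0 = 1 / (6 * C2 * (J + 1)) := ⟨_, rfl⟩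
  have hl00 : 0 < l0 := by rw [hl0]; positivity
  obtain ⟨A3, hA3⟩ : ∃ A3 : ℝ, A3 = (3 * Real.exp 1 * A2 ^ 2 * (AM + 1) + 1) / l0 := ⟨_, rfl⟩
  have hA30 : 0 < A3 := by rw [hA3]; positivity
  obtain ⟨C0, hC0⟩ : ∃ C0 : ℝ, C0 = A3 + AM + 2 := ⟨_, rfl⟩
  have hC01 : 1 ≤ C0 := by rw [hC0]; linarith
  refine ⟨√C0, by positivity, fun n hn => ?_⟩
  have hn0 : (0:ℝ) < n := by exact_mod_cast hn
  have hsn : 0 < √(n:ℝ) := Real.sqrt_pos.2 hn0
  rcases lt_or_ge (n : ℝ) C0 with hlt | hge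
  · filter_upwards [eventually_ge_atTop 0] with T hT
    calc volume {t : ℝ | t ∈ Icc T (2 * T) ∧ ∃ m : ℕ, n ≤ m ∧ lag m t < 0} ≤ volume (Icc T (2 * T)) :=
          measure_mono fun t ht => ht.1
      _ = ENNReal.ofReal T := by rw [Real.volume_Icc]; congr 1; ring
      _ ≤ _ := by
          apply ENNReal.ofReal_le_ofReal
          rw [le_div_iff₀ hsn, mul_comm]
          exact mul_le_mul_of_nonneg_right (Real.sqrt_le_sqrt hlt.le) hT
  · obtain ⟨η, hη⟩ : ∃ η : ℝ, η = (C0 / n) ^ (1 / 16 : ℝ) := ⟨_, rfl⟩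
    have hη0 : 0 < η := by rw [hη]; positivity
    have hη16 : η ^ 16 = C0 / n := by
      rw [hη, ← Real.rpow_natCast, ← Real.rpow_mul (by positivity)]
      norm_num
    have hη1 : η ≤ 1 := by
      rw [hη]
      exact Real.rpow_le_one (by positivity) (by rwa [div_le_one hn0]) (by norm_num)
    have hη8 : η ^ 8 = √C0 / √n := by
      rw [← Real.sqrt_div (by positivity), ← hη16, show η ^ 16 = (η ^ 8) ^ 2 by ring, Real.sqrt_sq (by positivity)]
    obtain ⟨K, hK⟩ : ∃ K : ℝ, K = A2 / η ^ 2 := ⟨_, rfl⟩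
    have hK0 : 0 < K := by rw [hK]; positivity
    obtain ⟨M, hM⟩ : ∃ M : ℕ, M = ⌈AM / η ^ 10⌉₊ := ⟨_, rfl⟩
    obtain ⟨m0, hm0⟩ : ∃ m0 : ℕ, m0 = ⌈A3 / η ^ 15⌉₊ := ⟨_, rfl⟩
    have hM1 : AM / η ^ 10 ≤ M := by rw [hM]; exact Nat.le_ceil _
    have hM2 : (M : ℝ) < AM / η ^ 10 + 1 := by rw [hM]; exact Nat.ceil_lt_add_one (by positivity)
    have hm1 : A3 / η ^ 15 ≤ m0 := by rw [hm0]; exact Nat.le_ceil _
    have hm2 : (m0 : ℝ) < A3 / η ^ 15 + 1 := by rw [hm0]; exact Nat.ceil_lt_add_one (by positivity)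
    have hMpos : (0:ℝ) < M := lt_of_lt_of_le (by positivity) hM1
    have hmpos : (0:ℝ) < m0 := lt_of_lt_of_le (by positivity) hm1
    have hp : ∀ k : ℕ, 1 ≤ 1 / η ^ k := fun k => by
      rw [le_div_iff₀ (by positivity), one_mul]
      exact pow_le_one₀ hη0.le hη1
    have hM3 : (M : ℝ) ≤ (AM + 1) / η ^ 10 := by
      have := hp 10
      rw [add_div]
      linarith
    have hcond : 3 * Real.exp 1 * K ^ 2 * M ≤ ((l0 * η ^ 8) * m0) ^ 2 := by
      have h1 : 3 * Real.exp 1 * K ^ 2 * M ≤ 3 * Real.exp 1 * (A2 / η ^ 2) ^ 2 * ((AM + 1) / η ^ 10) := by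
        rw [hK]
        gcongr
      have h2 : 3 * Real.exp 1 * (A2 / η ^ 2) ^ 2 * ((AM + 1) / η ^ 10) =
          (3 * Real.exp 1 * A2 ^ 2 * (AM + 1)) / η ^ 14 := by
        field_simp
      have h3 : ((l0 * η ^ 8) * (A3 / η ^ 15)) ^ 2 ≤ ((l0 * η ^ 8) * m0) ^ 2 := by
        gcongr
      have h4 : ((l0 * η ^ 8) * (A3 / η ^ 15)) ^ 2 = (l0 * A3) ^ 2 / η ^ 14 := by
        field_simp
      have h5 : 3 * Real.exp 1 * A2 ^ 2 * (AM + 1) ≤ (l0 * A3) ^ 2 := by
        have h6 : l0 * A3 = 3 * Real.exp 1 * A2 ^ 2 * (AM + 1) + 1 := by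
          rw [hA3]
          field_simp
        rw [h6]
        have h7 : 0 ≤ 3 * Real.exp 1 * A2 ^ 2 * (AM + 1) := by positivity
        nlinarith
      have h6 : (3 * Real.exp 1 * A2 ^ 2 * (AM + 1)) / η ^ 14 ≤ (l0 * A3) ^ 2 / η ^ 14 := by
        gcongr
      linarith
    have hw := window hC1 hC2 hC3 hloc hmass hdist (K := K) (lam := l0 * η ^ 8) (M := M) (m0 := m0) hK0 (by positivity)
      (by exact_mod_cast hMpos) (by exact_mod_cast hmpos) hcond
    filter_upwards [hw, eventually_ge_atTop 0] with T hT hT0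
    have hnm : m0 + M ≤ n := by
      have h1 : ((m0 + M : ℕ) : ℝ) ≤ n := by
        push_cast
        have h2 : A3 / η ^ 15 ≤ A3 / η ^ 16 := by
          apply div_le_div_of_nonneg_left hA30.le (by positivity)
          exact pow_le_pow_of_le_one hη0.le hη1 (by norm_num)
        have h3 : AM / η ^ 10 ≤ AM / η ^ 16 := by
          apply div_le_div_of_nonneg_left hAM0.le (by positivity)
          exact pow_le_pow_of_le_one hη0.le hη1 (by norm_num)
        have h4 := hp 16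
        have h5 : (n : ℝ) = C0 / η ^ 16 := by
          rw [hη16]
          field_simp
        have h6 : C0 / η ^ 16 = A3 / η ^ 16 + AM / η ^ 16 + 2 * (1 / η ^ 16) := by
          rw [hC0]
          ring
        rw [h5, h6]
        linarith
      exact_mod_cast h1
    calc volume {t : ℝ | t ∈ Icc T (2 * T) ∧ ∃ m : ℕ, n ≤ m ∧ lag m t < 0}
        ≤ volume {t : ℝ | t ∈ Icc T (2 * T) ∧ ∃ m : ℕ, m0 + M ≤ m ∧ lag m t < 0} := by
          apply measure_mono
          rintro t ⟨h1, m, h2, h3⟩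
          exact ⟨h1, m, by omega, h3⟩
      _ ≤ _ := hT
      _ ≤ _ := by
          apply ENNReal.ofReal_le_ofReal
          have h1 : 4 * C3 * Real.exp (-(K / 4)) ≤ η ^ 8 / 3 := by
            have h2 := exp_neg_le (x := K / 4) (by positivity)
            have h3 : 24 / (K / 4) ^ 4 = 6144 * η ^ 8 / A2 ^ 4 := by
              rw [hK]
              field_simp
              norm_num
            rw [h3] at h2
            have h4 : 4 * C3 * Real.exp (-(K / 4)) ≤ 4 * C3 * (6144 * η ^ 8 / A2 ^ 4) := by gcongr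
            refine h4.trans ?_
            have h5 : 73728 * C3 ≤ A2 ^ 4 := by
              have h6 : A2 ≤ A2 ^ 4 := le_self_pow₀ hA2pos (by norm_num)
              rw [hA2] at h6 ⊢
              linarith
            rw [mul_div_assoc', div_le_div_iff₀ (by positivity) (by norm_num)]
            have h7 : 0 < η ^ 8 := by positivity
            nlinarith
          have h2 : 2 * C2 * K / M ≤ η ^ 8 / 3 := by
            have h3 : 2 * C2 * K / M ≤ 2 * C2 * K / (AM / η ^ 10) := by gcongr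
            refine h3.trans (le_of_eq ?_)
            rw [hK, hAM]
            field_simp
            norm_num
          have h3 : 2 * C2 * (∫ u, bump u) * (l0 * η ^ 8) ≤ η ^ 8 / 3 := by
            rw [← hJ, hl0]
            have h4 : 2 * C2 * J * (1 / (6 * C2 * (J + 1)) * η ^ 8) = (η ^ 8 / 3) * (J / (J + 1)) := by
              field_simp
              ring
            rw [h4]
            have h5 : J / (J + 1) ≤ 1 := by
              rw [div_le_one (by positivity)]
              linarith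
            have h6 : 0 ≤ η ^ 8 / 3 := by positivity
            nlinarith
          have h4 : √C0 * T / √n = η ^ 8 * T := by rw [hη8]; ring
          rw [h4]
          apply mul_le_mul_of_nonneg_right _ hT0
          linarith

end Pool.Agent.H826
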