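import Pool.Agent.H826.JenL

set_option autoImplicit false

/-!
# Jensen polynomials of all shifts at a positive proportion of the heights
-/

namespace Pool.Agent.H826

open Filter Topology MeasureTheory Complex Set
open Pool.Agent.V11271.LI (Zr mm reflE)

theorem jen_prop {d : ℕ} (hd : 2 ≤ d) {ε : ℝ} (hε : 0 < ε) : ∀ᶠ T : ℝ in atTop,
    volume {t : ℝ | T ≤ t ∧ t ≤ 2 * T ∧ ∃ n : ℕ, ¬ (0 < lag n t ∧
      ∀ z : ℂ, ∑ j ∈ Finset.range (d + 1), (d.choose j : ℂ) * ((n + j).factorial : ℂ) * (lag (n + j) t : ℂ) * z ^ j = 0 → z.im = 0)} ≤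
      ENNReal.ofReal (((√(d : ℝ) + √((d : ℝ) - 1)) * (Real.log (41 / 14) / (2 * Real.pi)) + ε) * T) := by
  classical
  have hpi := Real.pi_gt_three
  obtain ⟨c, hc⟩ : ∃ c : ℝ, c = √(d : ℝ) + √((d : ℝ) - 1) := ⟨_, rfl⟩
  have hc1 : 1 ≤ c := by
    rw [hc]
    have hd2 : (2:ℝ) ≤ d := by exact_mod_cast hd
    have h6 : 1 ≤ √(d : ℝ) := Real.one_le_sqrt.2 (by linarith)
    have h7 : 0 ≤ √((d : ℝ) - 1) := Real.sqrt_nonneg _
    linarith
  rw [← hc]
  obtain ⟨ε1, hε1⟩ : ∃ ε1 : ℝ, ε1 = ε / (6 * c) := ⟨_, rfl⟩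
  have hε10 : 0 < ε1 := by rw [hε1]; positivity
  have hε1c : c * ε1 = ε / 6 := by rw [hε1]; field_simp
  obtain ⟨θ, hθ⟩ : ∃ θ : ℝ, θ = 1 / (27 / 14 + ε1) := ⟨_, rfl⟩
  have hθ0 : 0 < θ := by rw [hθ]; positivity
  have hθ1 : θ < 14 / 27 := by
    rw [hθ, div_lt_div_iff₀ (by positivity) (by norm_num)]
    linarith
  have hlog : Real.log (1 + 1 / θ) ≤ Real.log (41 / 14) + ε1 := by
    have e : 1 + 1 / θ = 41 / 14 * (1 + 14 / 41 * ε1) := by
      rw [hθ, one_div_one_div]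
      ring
    rw [e, Real.log_mul (by norm_num) (by positivity)]
    have := Real.log_le_sub_one_of_pos (show 0 < 1 + 14 / 41 * ε1 by positivity)
    linarith
  filter_upwards [dist_sum hθ0 hθ1 (ε := ε1) hε10, eventually_gt_atTop (0:ℝ), eventually_ge_atTop (4 * c / ε)] with T hT hT0 hTc
  rw [div_le_iff₀ hε] at hTc
  obtain ⟨W, hW⟩ : ∃ W : Finset Zr, W = (ZT T).filter (fun ρ => 0 < de ρ) := ⟨_, rfl⟩
  obtain ⟨E, hE⟩ : ∃ E : Set ℝ, E = ((ZT T).image fun ρ => ga ρ : Finset ℝ) := ⟨_, rfl⟩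
  have hE0 : volume E = 0 := by
    rw [hE]
    exact (Finset.finite_toSet _).measure_zero _
  have hsub : {t : ℝ | T ≤ t ∧ t ≤ 2 * T ∧ ∃ n : ℕ, ¬ (0 < lag n t ∧
      ∀ z : ℂ, ∑ j ∈ Finset.range (d + 1), (d.choose j : ℂ) * ((n + j).factorial : ℂ) * (lag (n + j) t : ℂ) * z ^ j = 0 → z.im = 0)} ⊆
      (E ∪ (Icc T (T + c) ∪ Icc (2 * T - c) (2 * T))) ∪ ⋃ ρ ∈ W, Icc (ga ρ - c * de ρ) (ga ρ + c * de ρ) := by
    rintro t ⟨h1, h2, n, h4⟩
    by_cases hm : ∃ ρ : Zr, t = ga ρ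
    · obtain ⟨ρ, hρ⟩ := hm
      left; left
      rw [hE, Finset.mem_coe, Finset.mem_image]
      refine ⟨ρ, ?_, hρ.symm⟩
      rw [mem_ZT]
      constructor <;> linarith
    · push Not at hm
      rcases lt_or_ge t (T + c) with h5 | h5
      · left; right; left
        exact ⟨h1, h5.le⟩
      rcases lt_or_ge (2 * T - c) t with h6 | h6
      · left; right; right
        exact ⟨h6.le, h2⟩
      right
      have h7 : ∃ ρ : Zr, |t - ga ρ| < c * |de ρ| := by
        by_contra hcon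
        push Not at hcon
        rw [hc] at hcon
        exact h4 (hyp_local hd hm hcon n)
      obtain ⟨ρ', hρ'⟩ := h7
      obtain ⟨ρ, hρ, hpos⟩ : ∃ ρ : Zr, |t - ga ρ| < c * |de ρ| ∧ 0 ≤ de ρ := by
        rcases le_total 0 (de ρ') with h | h
        · exact ⟨ρ', hρ', h⟩
        · refine ⟨reflE ρ', ?_, ?_⟩
          · rw [ga_refl, de_refl, abs_neg]
            exact hρ'
          · rw [de_refl]
            linarith
      rw [abs_of_nonneg hpos] at hρ
      have hde0 : 0 < de ρ := by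
        by_contra hcon
        have : de ρ = 0 := le_antisymm (not_lt.1 hcon) hpos
        rw [this, mul_zero] at hρ
        exact absurd hρ (not_lt.2 (abs_nonneg _))
      have hde1 : de ρ < 1 := by
        unfold de
        linarith [ρ.2.2.2]
      have hcd : c * de ρ ≤ c := by nlinarith
      have h8 := abs_lt.1 hρ
      rw [mem_iUnion₂]
      refine ⟨ρ, ?_, ⟨by linarith, by linarith⟩⟩
      rw [hW, Finset.mem_filter, mem_ZT]
      exact ⟨⟨by linarith, by linarith⟩, hde0⟩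
  have hWpos : ∀ ρ ∈ W, 0 < de ρ := by
    intro ρ hρ
    rw [hW] at hρ
    exact (Finset.mem_filter.1 hρ).2
  have hvol : ∀ ρ ∈ W, volume (Icc (ga ρ - c * de ρ) (ga ρ + c * de ρ)) = ENNReal.ofReal (2 * c * de ρ) := by
    intro ρ hρ
    rw [Real.volume_Icc]
    congr 1
    ring
  have hU : volume (⋃ ρ ∈ W, Icc (ga ρ - c * de ρ) (ga ρ + c * de ρ)) ≤ ENNReal.ofReal (∑ ρ ∈ W, 2 * c * de ρ) := by
    refine (measure_biUnion_finset_le _ _).trans ?_
    rw [Finset.sum_congr rfl hvol, ← ENNReal.ofReal_sum_of_nonneg (fun ρ hρ => by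
      have := hWpos ρ hρ
      positivity)]
  have hI : volume (Icc T (T + c) ∪ Icc (2 * T - c) (2 * T)) ≤ ENNReal.ofReal (2 * c) := by
    refine (measure_union_le _ _).trans ?_
    rw [Real.volume_Icc, Real.volume_Icc, ← ENNReal.ofReal_add (by linarith) (by linarith)]
    apply ENNReal.ofReal_le_ofReal
    linarith
  refine (measure_mono hsub).trans ((measure_union_le _ _).trans ?_)
  refine (add_le_add ((measure_union_le _ _).trans (add_le_add hE0.le hI)) hU).trans ?_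
  have hsum0 : 0 ≤ ∑ ρ ∈ W, 2 * c * de ρ := Finset.sum_nonneg fun ρ hρ => by
    have := hWpos ρ hρ
    positivity
  rw [zero_add, ← ENNReal.ofReal_add (by linarith) hsum0]
  apply ENNReal.ofReal_le_ofReal
  rw [← Finset.mul_sum]
  have e : ∑ ρ ∈ W, de ρ = ∑ s ∈ W.image (fun ρ : Zr => (ρ : ℂ)), (s.re - 1 / 2) := by
    rw [Finset.sum_image (fun a _ b _ hab => Subtype.ext hab)]
    rfl
  have h1 := hT (W.image (fun ρ : Zr => (ρ : ℂ))) (fun s hs => by
    rw [Finset.mem_image] at hs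
    obtain ⟨ρ, hρ, rfl⟩ := hs
    have h2 := hWpos ρ hρ
    rw [hW, Finset.mem_filter, mem_ZT] at hρ
    unfold de at h2
    exact ⟨by linarith, ρ.2.1, hρ.1.1, hρ.1.2⟩)
  rw [e]
  have h3 : Real.log (1 + 1 / θ) / (4 * Real.pi) ≤ Real.log (41 / 14) / (4 * Real.pi) + ε1 / 4 := by
    rw [div_add' _ _ _ (by positivity), div_le_div_iff_of_pos_right (by positivity)]
    nlinarith
  have h4 : Real.log (41 / 14) / (2 * Real.pi) = 2 * (Real.log (41 / 14) / (4 * Real.pi)) := by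
    field_simp
    ring
  rw [h4]
  have h5 : 2 * c * ∑ s ∈ W.image (fun ρ : Zr => (ρ : ℂ)), (s.re - 1 / 2) ≤
      2 * c * ((Real.log (1 + 1 / θ) / (4 * Real.pi) + ε1) * T) := by gcongr
  have h6 : 2 * c * ((Real.log (1 + 1 / θ) / (4 * Real.pi) + ε1) * T) ≤
      2 * c * ((Real.log (41 / 14) / (4 * Real.pi) + ε1 / 4 + ε1) * T) := by gcongr
  have h7 : 2 * c * ((Real.log (41 / 14) / (4 * Real.pi) + ε1 / 4 + ε1) * T) =
      c * (2 * (Real.log (41 / 14) / (4 * Real.pi))) * T + 5 / 2 * (c * ε1) * T := by ring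
  rw [h7, hε1c] at h6
  have h8 : 0 < ε * T := by positivity
  nlinarith

lemma num_nine : (√(9 : ℝ) + √((9 : ℝ) - 1)) * (Real.log (41 / 14) / (2 * Real.pi)) < 1 := by
  have h1 : (41:ℝ) / 14 < Real.exp (10746 / 10000) := by
    have h2 := Real.exp_one_gt_d9
    have h3 := Real.quadratic_le_exp_of_nonneg (show (0:ℝ) ≤ 746 / 10000 by norm_num)
    have h4 : Real.exp (10746 / 10000) = Real.exp 1 * Real.exp (746 / 10000) := by
      rw [← Real.exp_add]
      norm_num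
    rw [h4]
    have h5 : (41:ℝ) / 14 < 2.7182818283 * (1 + 746 / 10000 + (746 / 10000) ^ 2 / 2) := by norm_num
    refine h5.trans_le (mul_le_mul h2.le h3 (by norm_num) (Real.exp_pos 1).le)
  have h6 : Real.log (41 / 14) < 10746 / 10000 := (Real.log_lt_iff_lt_exp (by norm_num)).2 h1
  have h7 := Real.pi_gt_d6
  have h8 : Real.log (41 / 14) / (2 * Real.pi) < 1711 / 10000 := by
    rw [div_lt_iff₀ (by positivity)]
    linarith
  have h9 : √(9:ℝ) ≤ 3 := by
    rw [Real.sqrt_le_left (by norm_num)]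
    norm_num
  have h10 : √((9:ℝ) - 1) ≤ 28285 / 10000 := by
    rw [Real.sqrt_le_left (by norm_num)]
    norm_num
  have h11 : 0 ≤ Real.log (41 / 14) / (2 * Real.pi) := by
    have := Real.log_nonneg (by norm_num : (1:ℝ) ≤ 41 / 14)
    positivity
  calc (√(9 : ℝ) + √((9 : ℝ) - 1)) * (Real.log (41 / 14) / (2 * Real.pi)) ≤ (3 + 28285 / 10000) * (1711 / 10000) := by gcongr
    _ < 1 := by norm_num

end Pool.Agent.H826
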