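import Pool.Agent.H826.LgA
import Pool.Agent.H826.JenK
import Pool.Agent.H826.Dens2

set_option autoImplicit false

/-!
# The measure of the bad heights decreases exponentially with the order
-/

namespace Pool.Agent.H826

open Complex Filter Topology MeasureTheory Metric Set
open scoped ComplexConjugate ENNReal

/-- a good height for the order `k` -/
def Gd (k : ℕ) (t : ℝ) : Prop := ∃ y1 : ℝ, 0 < y1 ∧ Sad (1 / 4) k (fun u => gx t (y1 * u))

/-- the bad heights of one order -/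
theorem good_windows : ∃ c : ℝ, 0 < c ∧ ∃ k0 : ℕ, ∃ T0 : ℝ, 100 ≤ T0 ∧ ∀ T : ℝ, T0 ≤ T → ∀ k : ℕ, k0 ≤ k →
    300 * (k : ℝ) + 300 ≤ Real.log T →
    volume {t : ℝ | T ≤ t ∧ t ≤ 2 * T ∧ ¬ Gd k t} ≤ ENNReal.ofReal (18 * Real.exp (-c * k) * T) := by
  obtain ⟨c, hc, k0, T0, hLG⟩ := Pool.Agent.H477.EU.t_LGU ((1 / 4) ^ 2 / 240000) (by norm_num) (by norm_num)
  refine ⟨c, hc, max k0 1, max T0 100, le_max_right _ _, fun T hT k hk hkT => ?_⟩
  have hT0 : T0 ≤ T := (le_max_left _ _).trans hT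
  have hT100 : 100 ≤ T := (le_max_right _ _).trans hT
  have hTpos : 0 < T := by linarith
  have hk0 : k0 ≤ k := (le_max_left _ _).trans hk
  have hk1 : 1 ≤ k := (le_max_right _ _).trans hk
  have hlog : 0 < Real.log T := Real.log_pos (by linarith)
  have hlog1 : 1 ≤ Real.log T := by
    have : (0:ℝ) ≤ k := Nat.cast_nonneg k
    linarith
  have hlog2 : Real.log (2 * T) ≤ 2 * Real.log T := by
    rw [show (2:ℝ) * Real.log T = Real.log (T ^ 2) by rw [Real.log_pow]; norm_num]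
    apply Real.log_le_log (by linarith)
    nlinarith
  have hlog2' : Real.log T ≤ Real.log (2 * T) := Real.log_le_log hTpos (by linarith)
  have hlog2p : 0 < Real.log (2 * T) := by linarith
  obtain ⟨H, hH⟩ : ∃ H : ℝ, H = T / (4 * Real.log (2 * T)) := ⟨_, rfl⟩
  have hH0 : 0 < H := by rw [hH]; positivity
  have hcen : ∀ j : ℕ, T ≤ T + j * H := fun j => by
    have : 0 ≤ (j : ℝ) * H := by positivity
    linarith
  have hB : ∀ j : ℕ, ∃ B : Set ℝ, volume B ≤ ENNReal.ofReal (Real.exp (-c * k) * ((T + j * H) / Real.log (T + j * H))) ∧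
      ∀ t : ℝ, |t - (T + j * H)| ≤ (T + j * H) / (4 * Real.log (T + j * H)) → t ∉ B → Gd k t := by
    intro j
    obtain ⟨B, _, h2, h3⟩ := hLG (T + j * H) (hT0.trans (hcen j)) k hk0
      (hkT.trans (Real.log_le_log hTpos (hcen j)))
    refine ⟨B, h2, fun t ht htB => ?_⟩
    have h4 := h3 t ht htB
    have hlam : 8 * (k : ℝ) ≤ Pool.Agent.H477.E.lamT (T + j * H) := by
      unfold Pool.Agent.H477.E.lamT
      have hpi := Real.pi_pos
      have h5 : Real.log (T + j * H) - 2 ≤ Real.log ((T + j * H) / (2 * Real.pi)) := by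
        rw [Real.log_div (by linarith [hcen j]) (by positivity)]
        have h6 : Real.log (2 * Real.pi) ≤ 2 := by
          rw [Real.log_le_iff_le_exp (by positivity)]
          have h7 : Real.exp 2 = Real.exp 1 * Real.exp 1 := by rw [← Real.exp_add]; norm_num
          rw [h7]
          have h8 := Real.exp_one_gt_d9
          have h9 := Real.pi_lt_d2
          nlinarith
        linarith
      have h6 := Real.log_le_log hTpos (hcen j)
      have h7 : (0:ℝ) ≤ k := Nat.cast_nonneg k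
      linarith
    have hpos : 0 < Pool.Agent.H477.E.lamT (T + j * H) := by
      have : (1:ℝ) ≤ k := by exact_mod_cast hk1
      linarith
    have hkp : (0:ℝ) < k := by exact_mod_cast hk1
    exact ⟨_, div_pos hkp hpos, sad_of_lgd (by norm_num) le_rfl (by norm_num) le_rfl hk1 hlam h4⟩
  choose B hB1 hB2 using hB
  obtain ⟨J, hJ⟩ : ∃ J : ℕ, J = ⌊T / H⌋₊ := ⟨_, rfl⟩
  have hTH : T / H = 4 * Real.log (2 * T) := by
    rw [hH]
    field_simp
  have hJ1 : (J : ℝ) ≤ T / H := by rw [hJ]; exact Nat.floor_le (by positivity)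
  have hsub : {t : ℝ | T ≤ t ∧ t ≤ 2 * T ∧ ¬ Gd k t} ⊆ ⋃ j ∈ Finset.range (J + 1), B j := by
    rintro t ⟨h1, h2, h3⟩
    rw [mem_iUnion₂]
    obtain ⟨j, hj⟩ : ∃ j : ℕ, j = ⌊(t - T) / H⌋₊ := ⟨_, rfl⟩
    have hx0 : 0 ≤ (t - T) / H := div_nonneg (by linarith) hH0.le
    have hj1 : (j : ℝ) ≤ (t - T) / H := by rw [hj]; exact Nat.floor_le hx0
    have hj2 : (t - T) / H < j + 1 := by rw [hj]; exact Nat.lt_floor_add_one _
    rw [le_div_iff₀ hH0] at hj1
    rw [div_lt_iff₀ hH0] at hj2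
    refine ⟨j, ?_, ?_⟩
    · rw [Finset.mem_range, Nat.lt_succ_iff, hJ, hj]
      apply Nat.floor_le_floor
      gcongr
      linarith
    · by_contra hcon
      apply h3
      apply hB2 j t _ hcon
      have h4 : H ≤ (T + j * H) / (4 * Real.log (T + j * H)) := by
        have h5 : Real.log (T + j * H) ≤ Real.log (2 * T) := Real.log_le_log (by linarith [hcen j]) (by linarith)
        have h6 : 0 < Real.log (T + j * H) := hlog.trans_le (Real.log_le_log hTpos (hcen j))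
        calc H = T / (4 * Real.log (2 * T)) := hH
          _ ≤ _ := by
              apply div_le_div₀ (by linarith [hcen j]) (hcen j) (by positivity)
              linarith
      rw [abs_le]
      constructor <;> linarith
  refine (measure_mono hsub).trans ((measure_biUnion_finset_le _ _).trans ?_)
  have h1 : ∀ j ∈ Finset.range (J + 1), volume (B j) ≤ ENNReal.ofReal (Real.exp (-c * k) * (2 * T / Real.log T)) := by
    intro j hj
    rw [Finset.mem_range, Nat.lt_succ_iff] at hj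
    refine (hB1 j).trans (ENNReal.ofReal_le_ofReal ?_)
    have h2 : (j : ℝ) * H ≤ T := by
      have h3 : (j : ℝ) ≤ T / H := le_trans (by exact_mod_cast hj) hJ1
      rwa [le_div_iff₀ hH0] at h3
    have h3 := Real.log_le_log hTpos (hcen j)
    apply mul_le_mul_of_nonneg_left _ (Real.exp_pos _).le
    apply div_le_div₀ (by linarith) (by linarith) hlog h3
  refine (Finset.sum_le_sum h1).trans ?_
  rw [Finset.sum_const, Finset.card_range, nsmul_eq_mul, ← ENNReal.ofReal_natCast, ← ENNReal.ofReal_mul (Nat.cast_nonneg _)]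
  apply ENNReal.ofReal_le_ofReal
  have h2 : ((J + 1 : ℕ) : ℝ) ≤ 9 * Real.log T := by
    push_cast
    rw [hTH] at hJ1
    linarith
  calc ((J + 1 : ℕ) : ℝ) * (Real.exp (-c * k) * (2 * T / Real.log T)) ≤
      (9 * Real.log T) * (Real.exp (-c * k) * (2 * T / Real.log T)) := by gcongr
    _ = _ := by
        field_simp
        ring

/-- the bad heights of the orders at least `n`, up to a small multiple of `log T` -/
theorem good_sum : ∃ c C : ℝ, 0 < c ∧ 0 < C ∧ ∃ k0 : ℕ, ∃ T0 : ℝ, 100 ≤ T0 ∧ ∀ T : ℝ, T0 ≤ T → ∀ n : ℕ, k0 ≤ n →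
    volume {t : ℝ | T ≤ t ∧ t ≤ 2 * T ∧ ∃ k : ℕ, n ≤ k ∧ 300 * (k : ℝ) + 300 ≤ Real.log T ∧ ¬ Gd k t} ≤
      ENNReal.ofReal (C * Real.exp (-c * n) * T) := by
  obtain ⟨c, hc, k0, T0, hT0, hw⟩ := good_windows
  have hx1 : Real.exp (-c) < 1 := by rw [Real.exp_lt_one_iff]; linarith
  have hx0 : 0 < Real.exp (-c) := Real.exp_pos _
  refine ⟨c, 18 / (1 - Real.exp (-c)), hc, div_pos (by norm_num) (by linarith), k0, T0, hT0, fun T hT n hn => ?_⟩
  obtain ⟨K, hK⟩ : ∃ K : ℕ, K = ⌊Real.log T⌋₊ := ⟨_, rfl⟩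
  have hTpos : 0 < T := by linarith
  have hsub : {t : ℝ | T ≤ t ∧ t ≤ 2 * T ∧ ∃ k : ℕ, n ≤ k ∧ 300 * (k : ℝ) + 300 ≤ Real.log T ∧ ¬ Gd k t} ⊆
      ⋃ k ∈ Finset.Ico n (K + 1), {t : ℝ | T ≤ t ∧ t ≤ 2 * T ∧ 300 * (k : ℝ) + 300 ≤ Real.log T ∧ ¬ Gd k t} := by
    rintro t ⟨h1, h2, k, h3, h4, h5⟩
    rw [mem_iUnion₂]
    refine ⟨k, ?_, h1, h2, h4, h5⟩
    rw [Finset.mem_Ico, Nat.lt_succ_iff]
    refine ⟨h3, ?_⟩
    rw [hK]
    apply Nat.le_floor
    have : (0:ℝ) ≤ k := Nat.cast_nonneg k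
    linarith
  refine (measure_mono hsub).trans ((measure_biUnion_finset_le _ _).trans ?_)
  have h1 : ∀ k ∈ Finset.Ico n (K + 1),
      volume {t : ℝ | T ≤ t ∧ t ≤ 2 * T ∧ 300 * (k : ℝ) + 300 ≤ Real.log T ∧ ¬ Gd k t} ≤
        ENNReal.ofReal (18 * T * Real.exp (-c) ^ k) := by
    intro k hk
    rw [Finset.mem_Ico] at hk
    by_cases h2 : 300 * (k : ℝ) + 300 ≤ Real.log T
    · refine (measure_mono ?_).trans ((hw T hT k (hn.trans hk.1) h2).trans (le_of_eq ?_))
      · rintro t ⟨a1, a2, _, a3⟩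
        exact ⟨a1, a2, a3⟩
      · congr 1
        rw [← Real.exp_nat_mul, show (k : ℝ) * -c = -c * k by ring]
        ring
    · have : {t : ℝ | T ≤ t ∧ t ≤ 2 * T ∧ 300 * (k : ℝ) + 300 ≤ Real.log T ∧ ¬ Gd k t} = ∅ := by
        rw [eq_empty_iff_forall_notMem]
        rintro t ⟨_, _, a3, _⟩
        exact h2 a3
      rw [this, measure_empty]
      exact zero_le
  refine (Finset.sum_le_sum h1).trans ?_
  rw [← ENNReal.ofReal_sum_of_nonneg (fun k _ => by positivity)]
  apply ENNReal.ofReal_le_ofReal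
  rw [← Finset.mul_sum]
  have h2 := geom_sum_Ico_le_of_lt_one (m := n) (n := K + 1) hx0.le hx1
  have h3 : Real.exp (-c) ^ n = Real.exp (-c * n) := by
    rw [← Real.exp_nat_mul, mul_comm]
  rw [h3] at h2
  calc 18 * T * ∑ k ∈ Finset.Ico n (K + 1), Real.exp (-c) ^ k ≤ 18 * T * (Real.exp (-c * n) / (1 - Real.exp (-c))) := by
        gcongr
    _ = _ := by ring

/-- on dyadic intervals -/
theorem rate_dyadic : ∃ c : ℝ, 0 < c ∧ ∀ d : ℕ, ∃ C T1 : ℝ, 0 < C ∧ 100 ≤ T1 ∧ ∀ T : ℝ, T1 ≤ T → ∀ n : ℕ,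
    volume {t : ℝ | T ≤ t ∧ t ≤ 2 * T ∧ ∃ m : ℕ, n ≤ m ∧ ¬ JenZ d m t} ≤ ENNReal.ofReal (C * Real.exp (-c * n) * T) := by
  obtain ⟨c0, C0, hc0, hC0, k0, T0, hT0, hsum⟩ := good_sum
  obtain ⟨c, hcdef⟩ : ∃ c : ℝ, c = min c0 (1 / 300) := ⟨_, rfl⟩
  have hc : 0 < c := by rw [hcdef]; exact lt_min hc0 (by norm_num)
  have hcc0 : c ≤ c0 := by rw [hcdef]; exact min_le_left _ _
  have hc300 : c ≤ 1 / 300 := by rw [hcdef]; exact min_le_right _ _
  refine ⟨c, hc, fun d => ?_⟩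
  obtain ⟨N0, hN0⟩ := jen_of_sad (κ := 1 / 4) (by norm_num) le_rfl d
  obtain ⟨W, X, hW, hX, hthr⟩ := jen_thr d (ε := 1 / 1000) (by norm_num)
  obtain ⟨T2, hT2⟩ := bad_small (g := 1 / 500) (a := 1) (e := 1 / 1000) (W := W) (by norm_num) (by norm_num) (by norm_num)
    (by norm_num) (by norm_num) hW
  obtain ⟨C1, hC1⟩ := jen_all d (ε := 1 / 100) (by norm_num)
  obtain ⟨T3, hT3⟩ : ∃ T3 : ℝ, ∀ T, T3 ≤ T → 1200 ≤ Real.log T ∧ 100 * |C1| ≤ Real.log T := by
    have h1 := Real.tendsto_log_atTop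
    exact eventually_atTop.1 ((h1.eventually_ge_atTop _).and (h1.eventually_ge_atTop _))
  obtain ⟨N1, hN1⟩ : ∃ N1 : ℕ, N1 = max k0 N0 := ⟨_, rfl⟩
  refine ⟨C0 + 1 + Real.exp (c * N1), max (max T0 X) (max T2 (max T3 100)), by positivity,
    (le_max_right T3 100).trans ((le_max_right _ _).trans (le_max_right _ _)), fun T hT n => ?_⟩
  have hTT0 : T0 ≤ T := ((le_max_left _ _).trans (le_max_left _ _)).trans hT
  have hTX : X ≤ T := ((le_max_right _ _).trans (le_max_left _ _)).trans hT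
  have hTT2 : T2 ≤ T := ((le_max_left _ _).trans (le_max_right _ _)).trans hT
  have hTT3 : T3 ≤ T := ((le_max_left _ _).trans ((le_max_right _ _).trans (le_max_right _ _))).trans hT
  have hT100 : 100 ≤ T := hT0.trans hTT0
  have hTpos : 0 < T := by linarith
  obtain ⟨hl1, hl2⟩ := hT3 T hTT3
  have hlog2 : ∀ t : ℝ, T ≤ t → t ≤ 2 * T → Real.log (t + 2) ≤ Real.log T + 2 := by
    intro t h1 h2
    have h3 : t + 2 ≤ T * Real.exp 2 := by
      have h4 : Real.exp 2 = Real.exp 1 * Real.exp 1 := by rw [← Real.exp_add]; norm_num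
      have h5 := Real.exp_one_gt_d9
      have h6 : (4:ℝ) ≤ Real.exp 2 := by rw [h4]; nlinarith
      nlinarith
    have h4 := Real.log_le_log (by linarith) h3
    rwa [Real.log_mul hTpos.ne' (Real.exp_pos _).ne', Real.log_exp] at h4
  rcases lt_or_ge n N1 with hn | hn
  · have hsub : {t : ℝ | T ≤ t ∧ t ≤ 2 * T ∧ ∃ m : ℕ, n ≤ m ∧ ¬ JenZ d m t} ⊆ Icc T (2 * T) := by
      rintro t ⟨h1, h2, _⟩
      exact ⟨h1, h2⟩
    refine (measure_mono hsub).trans ?_
    rw [Real.volume_Icc]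
    apply ENNReal.ofReal_le_ofReal
    have h1 : 1 ≤ Real.exp (c * N1) * Real.exp (-c * n) := by
      rw [← Real.exp_add]
      apply Real.one_le_exp
      have : (n : ℝ) ≤ N1 := by exact_mod_cast hn.le
      nlinarith
    have h2 : 0 ≤ (C0 + 1) * Real.exp (-c * n) := by positivity
    nlinarith
  · have hnk : k0 ≤ n := le_trans (by rw [hN1]; exact le_max_left _ _) hn
    have hnN : N0 ≤ n := le_trans (by rw [hN1]; exact le_max_right _ _) hn
    rcases le_or_gt (3 / 10 * Real.log T) n with hbig | hbig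
    · have hempty : {t : ℝ | T ≤ t ∧ t ≤ 2 * T ∧ ∃ m : ℕ, n ≤ m ∧ ¬ JenZ d m t} = ∅ := by
        rw [eq_empty_iff_forall_notMem]
        rintro t ⟨h1, h2, m, h3, h4⟩
        apply h4
        apply hC1
        rw [abs_of_pos (by linarith : 0 < t)]
        have h5 := hlog2 t h1 h2
        have h6 : (n : ℝ) ≤ m := by exact_mod_cast h3
        have h7 := le_abs_self C1
        linarith
      rw [hempty, measure_empty]
      exact zero_le
    · have hsub : {t : ℝ | T ≤ t ∧ t ≤ 2 * T ∧ ∃ m : ℕ, n ≤ m ∧ ¬ JenZ d m t} ⊆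
          {t : ℝ | T ≤ t ∧ t ≤ 2 * T ∧ ∃ k : ℕ, n ≤ k ∧ 300 * (k : ℝ) + 300 ≤ Real.log T ∧ ¬ Gd k t} ∪
          {t : ℝ | T ≤ t ∧ t ≤ 2 * T ∧ ∃ s : ℂ, 1 / 2 + 1 / 500 < s.re ∧ |s.im - t| < W ∧ riemannZeta s = 0} := by
        rintro t ⟨h1, h2, m, h3, h4⟩
        rcases le_or_gt (300 * (m : ℝ) + 300) (Real.log T) with h5 | h5
        · left
          refine ⟨h1, h2, m, h3, h5, fun h6 => h4 ?_⟩
          obtain ⟨y1, hy1, hS⟩ := h6
          exact hN0 m (hnN.trans h3) t y1 hy1 hS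
        · right
          refine ⟨h1, h2, ?_⟩
          by_contra hcon
          push Not at hcon
          apply h4
          refine hthr (1 / 500) (by norm_num) (by norm_num) t ?_ hcon m ?_
          · rw [abs_of_pos (by linarith : 0 < t)]
            linarith
          · rw [abs_of_pos (by linarith : 0 < t)]
            have h6 := hlog2 t h1 h2
            have h7 : Real.log t ≤ Real.log (t + 2) := Real.log_le_log (by linarith) (by linarith)
            linarith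
      refine (measure_mono hsub).trans ((measure_union_le _ _).trans ?_)
      refine (add_le_add (hsum T hTT0 n hnk) (hT2 T hTT2)).trans ?_
      rw [← ENNReal.ofReal_add (by positivity) (by positivity)]
      apply ENNReal.ofReal_le_ofReal
      have h1 : Real.exp (-c0 * n) ≤ Real.exp (-c * n) := by
        rw [Real.exp_le_exp]
        have : (0:ℝ) ≤ n := Nat.cast_nonneg n
        nlinarith
      have h2 : T ^ (1 - 1 / 1000 : ℝ) ≤ Real.exp (-c * n) * T := by
        rw [sub_eq_neg_add, Real.rpow_add_one hTpos.ne']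
        apply mul_le_mul_of_nonneg_right _ hTpos.le
        rw [Real.rpow_def_of_pos hTpos, Real.exp_le_exp]
        have h3 : c * n ≤ 1 / 300 * (3 / 10 * Real.log T) := by gcongr
        linarith
      have h3 : C0 * Real.exp (-c0 * n) * T ≤ C0 * Real.exp (-c * n) * T := by gcongr
      have h4 : 0 ≤ Real.exp (c * N1) * Real.exp (-c * n) * T := by positivity
      calc C0 * Real.exp (-c0 * n) * T + T ^ (1 - 1 / 1000 : ℝ) ≤
          C0 * Real.exp (-c * n) * T + Real.exp (-c * n) * T := add_le_add h3 h2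
        _ ≤ _ := by linarith

/-- for all heights and all orders -/
theorem rate_all : ∃ c : ℝ, 0 < c ∧ ∀ d : ℕ, ∃ C : ℝ, 0 < C ∧ ∀ (n : ℕ) (T : ℝ), 0 < T →
    volume {t : ℝ | 0 ≤ t ∧ t ≤ T ∧ ∃ m : ℕ, n ≤ m ∧ ¬ JenZ d m t} ≤ ENNReal.ofReal (C * Real.exp (-c * n) * T) := by
  obtain ⟨c, hc, hrate⟩ := rate_dyadic
  refine ⟨c, hc, fun d => ?_⟩
  obtain ⟨C0, T1, hC0, hT1, hdy⟩ := hrate d
  obtain ⟨C1, hC1⟩ := jen_all d (ε := 1 / 100) (by norm_num)
  obtain ⟨M, hM⟩ : ∃ M : ℝ, M = (1 / 4 + 1 / 100) * Real.log (2 * T1 + 2) + C1 := ⟨_, rfl⟩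
  obtain ⟨C, hC⟩ : ∃ C : ℝ, C = max (2 * C0) (Real.exp (c * |M|)) := ⟨_, rfl⟩
  have hCC0 : 2 * C0 ≤ C := by rw [hC]; exact le_max_left _ _
  have hCM : Real.exp (c * |M|) ≤ C := by rw [hC]; exact le_max_right _ _
  have hCpos : 0 < C := lt_of_lt_of_le (by positivity) hCC0
  refine ⟨C, hCpos, fun n => ?_⟩
  have hbase : ∀ T : ℝ, 0 < T → T ≤ 2 * T1 →
      volume {t : ℝ | 0 ≤ t ∧ t ≤ T ∧ ∃ m : ℕ, n ≤ m ∧ ¬ JenZ d m t} ≤ ENNReal.ofReal (C * Real.exp (-c * n) * T) := by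
    intro T hT0 hT
    rcases le_or_gt M n with h1 | h1
    · have hempty : {t : ℝ | 0 ≤ t ∧ t ≤ T ∧ ∃ m : ℕ, n ≤ m ∧ ¬ JenZ d m t} = ∅ := by
        rw [eq_empty_iff_forall_notMem]
        rintro t ⟨h2, h3, m, h4, h5⟩
        apply h5
        apply hC1
        rw [abs_of_nonneg h2]
        have h6 : Real.log (t + 2) ≤ Real.log (2 * T1 + 2) := Real.log_le_log (by linarith) (by linarith)
        have h7 : (n : ℝ) ≤ m := by exact_mod_cast h4
        linarith
      rw [hempty, measure_empty]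
      exact zero_le
    · have hsub : {t : ℝ | 0 ≤ t ∧ t ≤ T ∧ ∃ m : ℕ, n ≤ m ∧ ¬ JenZ d m t} ⊆ Icc 0 T := by
        rintro t ⟨h1, h2, _⟩
        exact ⟨h1, h2⟩
      refine (measure_mono hsub).trans ?_
      rw [Real.volume_Icc]
      apply ENNReal.ofReal_le_ofReal
      have h2 : 1 ≤ Real.exp (c * |M|) * Real.exp (-c * n) := by
        rw [← Real.exp_add]
        apply Real.one_le_exp
        have h3 := le_abs_self M
        nlinarith
      have h3 : Real.exp (c * |M|) * Real.exp (-c * n) ≤ C * Real.exp (-c * n) := by gcongr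
      nlinarith
  have hind : ∀ j : ℕ, ∀ T : ℝ, 0 < T → T ≤ 2 ^ j * (2 * T1) →
      volume {t : ℝ | 0 ≤ t ∧ t ≤ T ∧ ∃ m : ℕ, n ≤ m ∧ ¬ JenZ d m t} ≤ ENNReal.ofReal (C * Real.exp (-c * n) * T) := by
    intro j
    induction j with
    | zero =>
      intro T hT0 hT
      exact hbase T hT0 (by simpa using hT)
    | succ j ih =>
      intro T hT0 hT
      rcases le_or_gt T (2 * T1) with h1 | h1
      · exact hbase T hT0 h1
      · have hsub : {t : ℝ | 0 ≤ t ∧ t ≤ T ∧ ∃ m : ℕ, n ≤ m ∧ ¬ JenZ d m t} ⊆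
            {t : ℝ | 0 ≤ t ∧ t ≤ T / 2 ∧ ∃ m : ℕ, n ≤ m ∧ ¬ JenZ d m t} ∪
            {t : ℝ | T / 2 ≤ t ∧ t ≤ 2 * (T / 2) ∧ ∃ m : ℕ, n ≤ m ∧ ¬ JenZ d m t} := by
          rintro t ⟨h2, h3, h4⟩
          rcases le_total t (T / 2) with h5 | h5
          · left
            exact ⟨h2, h5, h4⟩
          · right
            exact ⟨h5, by linarith, h4⟩
        refine (measure_mono hsub).trans ((measure_union_le _ _).trans ?_)
        have h2 := ih (T / 2) (by linarith) (by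
          rw [pow_succ] at hT
          linarith)
        have h3 := hdy (T / 2) (by linarith) n
        refine (add_le_add h2 h3).trans ?_
        rw [← ENNReal.ofReal_add (by positivity) (by positivity)]
        apply ENNReal.ofReal_le_ofReal
        have h4 : C0 * Real.exp (-c * n) * (T / 2) ≤ C / 2 * Real.exp (-c * n) * (T / 2) := by
          gcongr
          linarith
        have h5 : 0 ≤ C * Real.exp (-c * n) * T := by positivity
        nlinarith
  intro T hT0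
  obtain ⟨j, hj⟩ := pow_unbounded_of_one_lt (T / (2 * T1)) (by norm_num : (1:ℝ) < 2)
  refine hind j T hT0 ?_
  rw [div_lt_iff₀ (by linarith)] at hj
  exact hj.le

/-- the derivatives at `Y ≥ 0` when the coefficients are nonnegative from some order on -/
lemma iter_nonneg_of_lag {t Y : ℝ} (hY : 0 ≤ Y) {n : ℕ} (h : ∀ m : ℕ, n ≤ m → 0 ≤ lag m t) {m : ℕ} (hm : n ≤ m) :
    0 ≤ iteratedDeriv m (Ft t) Y := by
  by_contra hcon
  push Not at hcon
  obtain ⟨M0, hM0⟩ := iter_partial t m Y (ε := -iteratedDeriv m (Ft t) Y / 2) (by linarith)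
  have h1 := hM0 M0 le_rfl
  have h2 : 0 ≤ (m.factorial : ℝ) * ∑ j ∈ Finset.range M0, (j.choose m : ℝ) * Y ^ (j - m) * lag j t := by
    apply mul_nonneg (Nat.cast_nonneg _)
    apply Finset.sum_nonneg
    intro j _
    rcases lt_or_ge j m with h3 | h3
    · rw [Nat.choose_eq_zero_of_lt h3]
      simp
    · have := h j (hm.trans h3)
      positivity
  have h3 := (abs_le.1 h1).1
  linarith

end Pool.Agent.H826
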