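import Pool.Agent.H826.LgB
import Pool.Agent.H826.Unif

set_option autoImplicit false

/-!
# A uniform estimate in the order and in the half-plane
-/

namespace Pool.Agent.H826

open Complex Filter Topology MeasureTheory Metric Set
open scoped ComplexConjugate ENNReal

theorem rate_h : ∃ c C : ℝ, 0 < c ∧ 0 < C ∧ ∀ (h T : ℝ) (n : ℕ), 0 ≤ h → h ≤ 1 / 2 → 4 ≤ T →
    volume {t : ℝ | T ≤ t ∧ t ≤ 2 * T ∧ ∃ m : ℕ, n ≤ m ∧ iteratedDeriv m (Ft t) (h ^ 2) < 0} ≤
      ENNReal.ofReal (C * T * Real.exp (-c * (n + h * Real.log T))) := by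
  obtain ⟨c1, hc1, hr⟩ := rate_all
  obtain ⟨C1, hC1, hrate⟩ := hr 0
  obtain ⟨C2, hC2, hdens⟩ := unif_dens (c := 1) (by norm_num)
  obtain ⟨c, hc⟩ : ∃ c : ℝ, c = min (c1 / 2) (1 / 2) := ⟨_, rfl⟩
  have hc0 : 0 < c := by rw [hc]; exact lt_min (by positivity) (by norm_num)
  have hcc1 : c ≤ c1 / 2 := by rw [hc]; exact min_le_left _ _
  have hc2 : c ≤ 1 / 2 := by rw [hc]; exact min_le_right _ _
  refine ⟨c, 2 * C1 + C2, hc0, by positivity, fun h T n hh0 hh1 hT => ?_⟩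
  have hT0 : 0 < T := by linarith
  have hL : 0 < Real.log T := Real.log_pos (by linarith)
  have hn0 : (0:ℝ) ≤ n := Nat.cast_nonneg n
  have hA : volume {t : ℝ | T ≤ t ∧ t ≤ 2 * T ∧ ∃ m : ℕ, n ≤ m ∧ iteratedDeriv m (Ft t) (h ^ 2) < 0} ≤
      ENNReal.ofReal (C1 * Real.exp (-c1 * n) * (2 * T)) := by
    refine (measure_mono ?_).trans (hrate n (2 * T) (by positivity))
    rintro t ⟨h1, h2, m, h3, h4⟩
    refine ⟨by linarith, h2, ?_⟩
    by_contra hcon
    push Not at hcon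
    have h5 : ∀ j : ℕ, n ≤ j → 0 ≤ lag j t := fun j hj => (hcon j hj).1.le
    exact absurd (iter_nonneg_of_lag (sq_nonneg h) h5 h3) (not_le.2 h4)
  have hB : volume {t : ℝ | T ≤ t ∧ t ≤ 2 * T ∧ ∃ m : ℕ, n ≤ m ∧ iteratedDeriv m (Ft t) (h ^ 2) < 0} ≤
      ENNReal.ofReal (C2 * T ^ (1 - 1 * h)) := by
    refine (measure_mono ?_).trans (hdens h T hh0 hh1 hT)
    rintro t ⟨h1, h2, m, _, h4⟩
    exact ⟨h1, h2, m, h4⟩
  have hTh : T ^ (1 - 1 * h) = T * Real.exp (-(h * Real.log T)) := by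
    rw [one_mul, sub_eq_add_neg, Real.rpow_add hT0, Real.rpow_one, Real.rpow_def_of_pos hT0]
    congr 2
    ring
  rcases le_total (c1 * n) (h * Real.log T) with h1 | h1
  · refine hB.trans (ENNReal.ofReal_le_ofReal ?_)
    rw [hTh]
    have h2 : Real.exp (-(h * Real.log T)) ≤ Real.exp (-c * (n + h * Real.log T)) := by
      rw [Real.exp_le_exp]
      have h3 : c * n ≤ c1 / 2 * n := by gcongr
      have h4 : c * (h * Real.log T) ≤ 1 / 2 * (h * Real.log T) := by gcongr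
      linarith
    have h3 : 0 ≤ 2 * C1 * T * Real.exp (-c * (n + h * Real.log T)) := by positivity
    calc C2 * (T * Real.exp (-(h * Real.log T))) ≤ C2 * (T * Real.exp (-c * (n + h * Real.log T))) := by gcongr
      _ ≤ _ := by linarith
  · refine hA.trans (ENNReal.ofReal_le_ofReal ?_)
    have h2 : Real.exp (-c1 * n) ≤ Real.exp (-c * (n + h * Real.log T)) := by
      rw [Real.exp_le_exp]
      have h3 : c * n ≤ c1 / 2 * n := by gcongr
      have h4 : c * (h * Real.log T) ≤ 1 / 2 * (h * Real.log T) := by gcongr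
      linarith
    have h3 : 0 ≤ C2 * T * Real.exp (-c * (n + h * Real.log T)) := by positivity
    calc C1 * Real.exp (-c1 * n) * (2 * T) ≤ C1 * Real.exp (-c * (n + h * Real.log T)) * (2 * T) := by gcongr
      _ ≤ _ := by linarith

end Pool.Agent.H826
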