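import Pool.Agent.H826.LgF


set_option autoImplicit false

/-!
# The measure of the failures and the distances of the zeros from the line
-/

namespace Pool.Agent.H826

open Complex Filter Topology MeasureTheory Metric Set
open scoped ComplexConjugate ENNReal
open Pool.Agent.V11271.LI (Zr mm reflE)

/-- zeros off the line in the window -/
noncomputable def ZO (T : ℝ) : Finset Zr := by
  classical
  exact (ZT T).filter (fun ρ => 0 < de ρ ∧ T ≤ ga ρ ∧ ga ρ ≤ 2 * T)

lemma mem_ZO {T : ℝ} {ρ : Zr} : ρ ∈ ZO T ↔ 0 < de ρ ∧ T ≤ ga ρ ∧ ga ρ ≤ 2 * T := by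
  unfold ZO
  rw [Finset.mem_filter, mem_ZT]
  constructor
  · rintro ⟨_, h⟩
    exact h
  · intro h
    exact ⟨⟨by linarith [h.2.1], by linarith [h.2.2]⟩, h⟩

/-- the sum of the truncated distances -/
noncomputable def sg (T : ℝ) : ℝ := ∑ ρ ∈ ZO T, mm ρ * min (de ρ) (1 / Real.log T)

lemma sg_nonneg {T : ℝ} (hT : 1 ≤ T) : 0 ≤ sg T := by
  unfold sg
  refine Finset.sum_nonneg fun ρ hρ => mul_nonneg (mm_nonneg ρ) (le_min (mem_ZO.1 hρ).1.le ?_)
  exact div_nonneg zero_le_one (Real.log_nonneg hT)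

/-- the zeros far from the line -/
theorem far_mass : ∃ C : ℝ, 0 < C ∧ ∀ T K : ℝ, 4 ≤ T → 0 < K →
    ∑ ρ ∈ (ZO T).filter (fun ρ => K / Real.log T < de ρ), mm ρ * de ρ ≤ C * T * Real.exp (-(K / 4)) := by
  classical
  obtain ⟨C, hC, h⟩ := dist_mass
  refine ⟨C, hC, fun T K hT hK => le_trans ?_ (h T K hT hK)⟩
  have hL : 0 < Real.log T := Real.log_pos (by linarith)
  have hsub : (ZO T).filter (fun ρ => K / Real.log T < de ρ) ⊆ (ZT T).filter (fun ρ => (K / Real.log T) ^ 2 < 3 * de ρ ^ 2) := by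
    intro ρ hρ
    rw [Finset.mem_filter, mem_ZO] at hρ
    rw [Finset.mem_filter, mem_ZT]
    refine ⟨⟨by linarith [hρ.1.2.1], by linarith [hρ.1.2.2]⟩, ?_⟩
    have h1 : 0 < K / Real.log T := div_pos hK hL
    have h2 : (K / Real.log T) ^ 2 < de ρ ^ 2 := by
      apply pow_lt_pow_left₀ hρ.2 h1.le (by norm_num)
    nlinarith [sq_nonneg (de ρ)]
  calc ∑ ρ ∈ (ZO T).filter (fun ρ => K / Real.log T < de ρ), mm ρ * de ρ =
      ∑ ρ ∈ (ZO T).filter (fun ρ => K / Real.log T < de ρ), mm ρ * |de ρ| := by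
        refine Finset.sum_congr rfl fun ρ hρ => ?_
        rw [Finset.mem_filter, mem_ZO] at hρ
        rw [abs_of_pos hρ.1.1]
    _ ≤ _ := by
        refine Finset.sum_le_sum_of_subset_of_nonneg ?_ fun ρ _ _ => mul_nonneg (mm_nonneg ρ) (abs_nonneg _)
        convert hsub using 2

/-- the distances in terms of the truncated distances -/
theorem dist_le : ∃ C : ℝ, 0 < C ∧ ∀ T K : ℝ, 4 ≤ T → 1 ≤ K →
    ∑ ρ ∈ ZO T, mm ρ * de ρ ≤ K * sg T + C * T * Real.exp (-(K / 4)) := by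
  classical
  obtain ⟨C, hC, hfar⟩ := far_mass
  refine ⟨C, hC, fun T K hT hK => ?_⟩
  have hL : 0 < Real.log T := Real.log_pos (by linarith)
  rw [← Finset.sum_filter_add_sum_filter_not (ZO T) (fun ρ => K / Real.log T < de ρ)]
  have h1 := hfar T K hT (by linarith)
  have h2 : ∑ ρ ∈ (ZO T).filter (fun ρ => ¬ K / Real.log T < de ρ), mm ρ * de ρ ≤ K * sg T := by
    unfold sg
    rw [Finset.mul_sum]
    calc ∑ ρ ∈ (ZO T).filter (fun ρ => ¬ K / Real.log T < de ρ), mm ρ * de ρ ≤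
        ∑ ρ ∈ (ZO T).filter (fun ρ => ¬ K / Real.log T < de ρ), K * (mm ρ * min (de ρ) (1 / Real.log T)) := by
          refine Finset.sum_le_sum fun ρ hρ => ?_
          rw [Finset.mem_filter, mem_ZO, not_lt] at hρ
          have h3 : de ρ ≤ K * min (de ρ) (1 / Real.log T) := by
            rcases le_total (de ρ) (1 / Real.log T) with h4 | h4
            · rw [min_eq_left h4]
              nlinarith [hρ.1.1]
            · rw [min_eq_right h4]
              refine hρ.2.trans (le_of_eq ?_)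
              ring
          calc mm ρ * de ρ ≤ mm ρ * (K * min (de ρ) (1 / Real.log T)) := mul_le_mul_of_nonneg_left h3 (mm_nonneg ρ)
            _ = _ := by ring
      _ ≤ _ := by
          refine Finset.sum_le_sum_of_subset_of_nonneg (Finset.filter_subset _ _) fun ρ hρ _ => ?_
          have h3 := (mem_ZO.1 hρ).1
          have h4 := mm_nonneg ρ
          have h5 : 0 ≤ min (de ρ) (1 / Real.log T) := le_min h3.le (by positivity)
          positivity
  linarith

/-- the truncated distances in terms of the zeros near the line -/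
theorem sg_le : ∃ C : ℝ, 0 < C ∧ ∀ (T : ℝ) (k : ℕ), 4 ≤ T → 1 ≤ k →
    sg T ≤ ∑ ρ ∈ Wk k T, mm ρ * de ρ + C * T * Real.exp (-((k : ℝ) / 4)) := by
  classical
  obtain ⟨C, hC, hfar⟩ := far_mass
  refine ⟨C, hC, fun T k hT hk => ?_⟩
  have hL : 0 < Real.log T := Real.log_pos (by linarith)
  have hk1 : (1:ℝ) ≤ k := by exact_mod_cast hk
  unfold sg
  rw [← Finset.sum_filter_add_sum_filter_not (ZO T) (fun ρ => (k : ℝ) / Real.log T < de ρ)]
  have h1 : ∑ ρ ∈ (ZO T).filter (fun ρ => (k : ℝ) / Real.log T < de ρ), mm ρ * min (de ρ) (1 / Real.log T) ≤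
      C * T * Real.exp (-((k : ℝ) / 4)) := by
    refine le_trans (Finset.sum_le_sum fun ρ _ => ?_) (hfar T k hT (by linarith))
    exact mul_le_mul_of_nonneg_left (min_le_left _ _) (mm_nonneg ρ)
  have h2 : ∑ ρ ∈ (ZO T).filter (fun ρ => ¬ (k : ℝ) / Real.log T < de ρ), mm ρ * min (de ρ) (1 / Real.log T) ≤
      ∑ ρ ∈ Wk k T, mm ρ * de ρ := by
    have e : (ZO T).filter (fun ρ => ¬ (k : ℝ) / Real.log T < de ρ) = Wk k T := by
      ext ρ
      rw [Finset.mem_filter, mem_ZO, mem_Wk, not_lt]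
      constructor
      · rintro ⟨⟨a, b, c⟩, d⟩
        exact ⟨a, d, b, c⟩
      · rintro ⟨a, d, b, c⟩
        exact ⟨⟨a, b, c⟩, d⟩
    rw [e]
    exact Finset.sum_le_sum fun ρ _ => mul_le_mul_of_nonneg_left (min_le_left _ _) (mm_nonneg ρ)
  linarith

/-- a crude bound -/
theorem sg_crude : ∃ C : ℝ, 0 < C ∧ ∀ T : ℝ, 4 ≤ T → sg T ≤ C * T := by
  classical
  obtain ⟨C, hC, hm⟩ := mass_ZT
  refine ⟨C, hC, fun T hT => ?_⟩
  have hL : 0 < Real.log T := Real.log_pos (by linarith)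
  have h1 : sg T ≤ (∑ ρ ∈ ZT T, mm ρ) * (1 / Real.log T) := by
    unfold sg
    rw [Finset.sum_mul]
    calc ∑ ρ ∈ ZO T, mm ρ * min (de ρ) (1 / Real.log T) ≤ ∑ ρ ∈ ZO T, mm ρ * (1 / Real.log T) :=
          Finset.sum_le_sum fun ρ _ => mul_le_mul_of_nonneg_left (min_le_right _ _) (mm_nonneg ρ)
      _ ≤ _ := by
          refine Finset.sum_le_sum_of_subset_of_nonneg ?_ fun ρ _ _ => mul_nonneg (mm_nonneg ρ) (by positivity)
          intro ρ hρ
          rw [mem_ZO] at hρ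
          rw [mem_ZT]
          exact ⟨by linarith [hρ.2.1], by linarith [hρ.2.2]⟩
  refine h1.trans ?_
  calc (∑ ρ ∈ ZT T, mm ρ) * (1 / Real.log T) ≤ (C * (T * Real.log T)) * (1 / Real.log T) := by
        gcongr
        exact hm T hT
    _ = _ := by field_simp

lemma Fl_fin (T : ℝ) : volume (Fl T) ≠ ∞ := by
  have h1 : Fl T ⊆ Icc T (2 * T) := by
    rintro t ⟨h1, h2, _⟩
    exact ⟨h1, h2⟩
  exact ((measure_mono h1).trans_lt (by rw [Real.volume_Icc]; exact ENNReal.ofReal_lt_top)).ne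

/-- the lower bound for the measure of the failures -/
theorem lower_all : ∃ c C : ℝ, 0 < c ∧ 0 < C ∧ ∀ T K : ℝ, 4 ≤ T → 1 ≤ K →
    sg T ≤ C * (K ^ 2 * (volume (Fl T)).toReal + (Real.exp (-c * K) + T ^ (-c)) * T) := by
  obtain ⟨c0, C0, hc0, hC0, k0, hk01, T0, hT0, hlow⟩ := meas_low0
  obtain ⟨C1, hC1, hsg⟩ := sg_le
  obtain ⟨C2, hC2, hcr⟩ := sg_crude
  obtain ⟨c, hc⟩ : ∃ c : ℝ, c = min (c0 / 600) (1 / 1200) := ⟨_, rfl⟩
  have hcpos : 0 < c := by rw [hc]; exact lt_min (by positivity) (by norm_num)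
  have hcc0 : c ≤ c0 / 600 := by rw [hc]; exact min_le_left _ _
  have hc1200 : c ≤ 1 / 1200 := by rw [hc]; exact min_le_right _ _
  -- k² exp(-c0 k) and L² exp(-c0 J)
  obtain ⟨D, hD0, hD⟩ : ∃ D : ℝ, 0 < D ∧ ∀ x : ℝ, 0 ≤ x → x ^ 2 * Real.exp (-(c0 * x)) ≤ D * Real.exp (-(c0 / 2 * x)) := by
    refine ⟨16 / c0 ^ 2, by positivity, fun x hx => ?_⟩
    have h1 : Real.exp (-(c0 * x)) = Real.exp (-(c0 / 2 * x)) * Real.exp (-(c0 / 2 * x)) := by
      rw [← Real.exp_add]
      congr 1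
      ring
    have h2 : x ^ 2 * Real.exp (-(c0 / 2 * x)) ≤ 16 / c0 ^ 2 := by
      have h3 := Real.quadratic_le_exp_of_nonneg (show 0 ≤ c0 / 2 * x by positivity)
      rw [Real.exp_neg, ← div_eq_mul_inv, div_le_div_iff₀ (Real.exp_pos _) (by positivity)]
      nlinarith [mul_nonneg hc0.le hx]
    rw [h1]
    have h3 := (Real.exp_pos (-(c0 / 2 * x))).le
    calc x ^ 2 * (Real.exp (-(c0 / 2 * x)) * Real.exp (-(c0 / 2 * x))) = (x ^ 2 * Real.exp (-(c0 / 2 * x))) * Real.exp (-(c0 / 2 * x)) := by ring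
      _ ≤ _ := by gcongr
  obtain ⟨G, hG⟩ : ∃ G : ℝ, G = 1 / (1 - Real.exp (-c0)) := ⟨_, rfl⟩
  have hx1 : Real.exp (-c0) < 1 := by rw [Real.exp_lt_one_iff]; linarith
  have hG0 : 0 < G := by rw [hG]; apply one_div_pos.2; linarith
  -- the bound for one k
  obtain ⟨T1, hT1⟩ : ∃ T1 : ℝ, T1 = max T0 (Real.exp (600 * (k0 + 2))) := ⟨_, rfl⟩
  obtain ⟨E, hE⟩ : ∃ E : ℝ, E = Real.exp c0 := ⟨_, rfl⟩
  have hE0 : 0 < E := by rw [hE]; exact Real.exp_pos _
  obtain ⟨Q, hQ⟩ : ∃ Q : ℝ, Q = 64 * 21 + (64 * 378 * (D * E) + 64 * 378 * G * (D * E) +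
      64 * 18 * C0 * (900 * (D * E)) + C1 * Real.exp 1) := ⟨_, rfl⟩
  have hQ0 : 0 < Q := by rw [hQ]; positivity
  have hmain : ∀ T K : ℝ, T1 ≤ T → (k0 : ℝ) + 1 ≤ K →
      sg T ≤ Q * (K ^ 2 * (volume (Fl T)).toReal + (Real.exp (-c * K) + T ^ (-c)) * T) := by
    intro T K hT hK
    have hTT0 : T0 ≤ T := le_trans (by rw [hT1]; exact le_max_left _ _) hT
    have hTe : Real.exp (600 * (k0 + 2)) ≤ T := le_trans (by rw [hT1]; exact le_max_right _ _) hT
    have hT100 : 100 ≤ T := hT0.trans hTT0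
    have hTpos : 0 < T := by linarith
    obtain ⟨L, hL⟩ : ∃ L : ℝ, L = Real.log T := ⟨_, rfl⟩
    have hL1 : 600 * ((k0 : ℝ) + 2) ≤ L := by
      rw [hL, Real.le_log_iff_exp_le hTpos]
      exact hTe
    have hk0r : (1:ℝ) ≤ k0 := by exact_mod_cast hk01
    have hL0 : 0 < L := by linarith
    have hTL : T = Real.exp L := by rw [hL, Real.exp_log hTpos]
    obtain ⟨J, hJ⟩ : ∃ J : ℕ, J = ⌊(L - 300) / 300⌋₊ := ⟨_, rfl⟩
    have hJ1 : (J : ℝ) ≤ (L - 300) / 300 := by
      rw [hJ]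
      exact Nat.floor_le (by linarith)
    have hJ2 : (L - 300) / 300 < J + 1 := by
      rw [hJ]
      exact Nat.lt_floor_add_one _
    have hJ3 : 300 * (J : ℝ) + 300 ≤ Real.log T := by rw [← hL]; linarith
    have hJ4 : L / 300 - 2 ≤ J := by linarith
    have hJ5 : (k0 : ℝ) ≤ J := by linarith
    have hJ6 : (1 : ℝ) ≤ J := by linarith
    have hK0 : 0 ≤ K := by linarith
    obtain ⟨k, hk⟩ : ∃ k : ℕ, k = min ⌊K⌋₊ J := ⟨_, rfl⟩
    have hkJ : k ≤ J := by rw [hk]; exact min_le_right _ _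
    have hkK : (k : ℝ) ≤ K := by
      have h1 : k ≤ ⌊K⌋₊ := by rw [hk]; exact min_le_left _ _
      exact le_trans (by exact_mod_cast h1) (Nat.floor_le hK0)
    have hk0k : k0 ≤ k := by
      rw [hk, le_min_iff]
      constructor
      · apply Nat.le_floor
        linarith
      · exact_mod_cast hJ5
    have hk1 : 1 ≤ k := hk01.trans hk0k
    have hk1r : (1:ℝ) ≤ k := by exact_mod_cast hk1
    have hkJr : (k : ℝ) ≤ J := by exact_mod_cast hkJ
    obtain ⟨μ, hμ⟩ : ∃ μ : ℝ, μ = (volume (Fl T)).toReal := ⟨_, rfl⟩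
    have hμ0 : 0 ≤ μ := by rw [hμ]; exact ENNReal.toReal_nonneg
    have hμv : volume (Fl T) = ENNReal.ofReal μ := by rw [hμ, ENNReal.ofReal_toReal (Fl_fin T)]
    obtain ⟨X, hX⟩ : ∃ X : ℝ, X = Real.exp (-c * K) + T ^ (-c) := ⟨_, rfl⟩
    have hTc : T ^ (-c) = Real.exp (-(c * L)) := by
      rw [Real.rpow_def_of_pos hTpos, ← hL]
      congr 1
      ring
    have hX1 : Real.exp (-c * K) ≤ X := by
      rw [hX]
      have : 0 ≤ T ^ (-c) := by positivity
      linarith
    have hX2 : Real.exp (-(c * L)) ≤ X := by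
      rw [hX, hTc]
      have := (Real.exp_pos (-c * K)).le
      linarith
    have hX0 : 0 < X := lt_of_lt_of_le (Real.exp_pos _) hX1
    rw [← hμ, ← hX]
    -- exponential bounds
    have hJX : Real.exp (-(c0 / 2 * J)) ≤ E * X := by
      have h1 : Real.exp (-(c0 / 2 * J)) ≤ E * Real.exp (-(c * L)) := by
        rw [hE, ← Real.exp_add, Real.exp_le_exp]
        have h2 : c * L ≤ c0 / 600 * L := by gcongr
        nlinarith
      exact h1.trans (by gcongr)
    have hkX : Real.exp (-(c0 / 2 * k)) ≤ E * X := by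
      rcases min_choice ⌊K⌋₊ J with h1 | h1
      · have h2 : K - 1 ≤ k := by
          rw [hk, h1]
          have := Nat.lt_floor_add_one K
          linarith
        have h3 : Real.exp (-(c0 / 2 * k)) ≤ E * Real.exp (-c * K) := by
          rw [hE, ← Real.exp_add, Real.exp_le_exp]
          have h4 : c * K ≤ c0 / 600 * K := by gcongr
          nlinarith
        exact h3.trans (by gcongr)
      · rw [hk, h1]
        exact hJX
    have hkX4 : Real.exp (-((k : ℝ) / 4)) ≤ Real.exp 1 * X := by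
      rcases min_choice ⌊K⌋₊ J with h1 | h1
      · have h2 : K - 1 ≤ k := by
          rw [hk, h1]
          have := Nat.lt_floor_add_one K
          linarith
        have h3 : Real.exp (-((k : ℝ) / 4)) ≤ Real.exp 1 * Real.exp (-c * K) := by
          rw [← Real.exp_add, Real.exp_le_exp]
          have h4 : c * K ≤ 1 / 1200 * K := by gcongr
          linarith
        exact h3.trans (by gcongr)
      · have h2 : (k : ℝ) = J := by rw [hk, h1]
        have h3 : Real.exp (-((k : ℝ) / 4)) ≤ Real.exp 1 * Real.exp (-(c * L)) := by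
          rw [← Real.exp_add, Real.exp_le_exp, h2]
          have h4 : c * L ≤ 1 / 1200 * L := by gcongr
          linarith
        exact h3.trans (by gcongr)
    -- the measure inequality
    have h1 := hlow T hTT0 k J hk0k hkJ hJ3
    rw [hμv, ← ENNReal.ofReal_mul (by positivity), ← hL] at h1
    have hd : 0 < 1 - Real.exp (-c0) := by linarith
    rw [← ENNReal.ofReal_add (by positivity) (by positivity)] at h1
    rw [ENNReal.ofReal_le_ofReal_iff (by positivity)] at h1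
    have h2 : ∑ ρ ∈ Wk k T, mm ρ * (de ρ / (64 * k)) = (∑ ρ ∈ Wk k T, mm ρ * de ρ) / (64 * k) := by
      rw [Finset.sum_div]
      refine Finset.sum_congr rfl fun ρ _ => ?_
      ring
    rw [h2, div_le_iff₀ (by positivity)] at h1
    have h3 := hsg T k (by linarith) hk1
    have e1 : Real.exp (-c0 * k) = Real.exp (-(c0 * k)) := by congr 1; ring
    have e2 : Real.exp (-c0 * J) = Real.exp (-(c0 * J)) := by congr 1; ring
    rw [e1, e2] at h1
    have h4 : (k : ℝ) ^ 2 * Real.exp (-(c0 * k)) ≤ D * (E * X) :=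
      (hD k (by linarith)).trans (by gcongr)
    have h5 : (k : ℝ) * Real.exp (-(c0 * k)) ≤ D * (E * X) := by
      refine le_trans ?_ h4
      have h50 : (k : ℝ) ≤ (k : ℝ) ^ 2 := by nlinarith
      exact mul_le_mul_of_nonneg_right h50 (Real.exp_pos _).le
    have h6 : (k : ℝ) * L * Real.exp (-(c0 * J)) ≤ 900 * (D * (E * X)) := by
      have h7 : L ≤ 900 * J := by linarith
      have h8 : (k : ℝ) * L ≤ J * (900 * J) := by gcongr
      calc (k : ℝ) * L * Real.exp (-(c0 * J)) ≤ (J * (900 * J)) * Real.exp (-(c0 * J)) := by gcongr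
        _ = 900 * ((J : ℝ) ^ 2 * Real.exp (-(c0 * J))) := by ring
        _ ≤ 900 * (D * (E * X)) := by
            apply mul_le_mul_of_nonneg_left _ (by norm_num)
            exact (hD J (by linarith)).trans (by gcongr)
    have hG' : 18 / (1 - Real.exp (-c0)) = 18 * G := by rw [hG]; ring
    rw [hG'] at h1
    have h7 : ∑ ρ ∈ Wk k T, mm ρ * de ρ ≤ 64 * 21 * (K ^ 2 * μ) + (64 * 378 * (D * E) + 64 * 378 * G * (D * E) +
        64 * 18 * C0 * (900 * (D * E))) * (X * T) := by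
      refine h1.trans ?_
      have h8 : (k : ℝ) ^ 2 * μ ≤ K ^ 2 * μ := by gcongr
      have e3 : (21 * k * μ + (21 * k * (18 * Real.exp (-(c0 * k)) * T) + 21 * (18 * G * Real.exp (-(c0 * k)) * T) +
          C0 * L * (18 * Real.exp (-(c0 * J)) * T))) * (64 * k) =
          64 * 21 * ((k : ℝ) ^ 2 * μ) + 64 * 378 * T * ((k : ℝ) ^ 2 * Real.exp (-(c0 * k))) +
          64 * 378 * G * T * ((k : ℝ) * Real.exp (-(c0 * k))) + 64 * 18 * C0 * T * ((k : ℝ) * L * Real.exp (-(c0 * J))) := by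
        ring
      rw [e3]
      calc 64 * 21 * ((k : ℝ) ^ 2 * μ) + 64 * 378 * T * ((k : ℝ) ^ 2 * Real.exp (-(c0 * k))) +
          64 * 378 * G * T * ((k : ℝ) * Real.exp (-(c0 * k))) + 64 * 18 * C0 * T * ((k : ℝ) * L * Real.exp (-(c0 * J))) ≤
          64 * 21 * (K ^ 2 * μ) + 64 * 378 * T * (D * (E * X)) +
          64 * 378 * G * T * (D * (E * X)) + 64 * 18 * C0 * T * (900 * (D * (E * X))) := by gcongr
        _ = _ := by ring
    have h8 : C1 * T * Real.exp (-((k : ℝ) / 4)) ≤ C1 * Real.exp 1 * (X * T) := by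
      calc C1 * T * Real.exp (-((k : ℝ) / 4)) ≤ C1 * T * (Real.exp 1 * X) := by gcongr
        _ = _ := by ring
    have h9 : 0 ≤ (64 * 378 * (D * E) + 64 * 378 * G * (D * E) + 64 * 18 * C0 * (900 * (D * E)) + C1 * Real.exp 1) * (K ^ 2 * μ) := by
      positivity
    have h10 : 0 ≤ 64 * 21 * (X * T) := by positivity
    calc sg T ≤ _ := h3
      _ ≤ (64 * 21 * (K ^ 2 * μ) + (64 * 378 * (D * E) + 64 * 378 * G * (D * E) +
        64 * 18 * C0 * (900 * (D * E))) * (X * T)) + C1 * Real.exp 1 * (X * T) := add_le_add h7 h8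
      _ ≤ Q * (K ^ 2 * μ + X * T) := by
          rw [hQ]
          nlinarith
  have hT10 : 0 < T1 := by
    rw [hT1]
    exact lt_of_lt_of_le (by linarith : (0:ℝ) < T0) (le_max_left _ _)
  refine ⟨c, Q + C2 * T1 ^ c + C2 * Real.exp (c * (k0 + 1)), hcpos, by positivity, fun T K hT hK => ?_⟩
  have hTpos : 0 < T := by linarith
  obtain ⟨μ, hμ⟩ : ∃ μ : ℝ, μ = (volume (Fl T)).toReal := ⟨_, rfl⟩
  have hμ0 : 0 ≤ μ := by rw [hμ]; exact ENNReal.toReal_nonneg
  rw [← hμ]
  have hTc0 : 0 ≤ T ^ (-c) := by positivity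
  have hA : 0 ≤ K ^ 2 * μ := by positivity
  have hB : 0 ≤ (Real.exp (-c * K) + T ^ (-c)) * T := by positivity
  have hT1c : 0 ≤ T1 ^ c := by positivity
  rcases lt_or_ge T T1 with h1 | h1
  · have h2 : 1 ≤ T1 ^ c * T ^ (-c) := by
      rw [Real.rpow_neg hTpos.le, ← div_eq_mul_inv, one_le_div (by positivity)]
      exact Real.rpow_le_rpow hTpos.le h1.le hcpos.le
    have h3 : C2 * T ≤ C2 * T1 ^ c * ((Real.exp (-c * K) + T ^ (-c)) * T) := by
      have h4 : T1 ^ c * T ^ (-c) ≤ T1 ^ c * (Real.exp (-c * K) + T ^ (-c)) := by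
        gcongr
        have := (Real.exp_pos (-c * K)).le
        linarith
      calc C2 * T = C2 * 1 * T := by ring
        _ ≤ C2 * (T1 ^ c * (Real.exp (-c * K) + T ^ (-c))) * T := by
            gcongr
            linarith
        _ = _ := by ring
    calc sg T ≤ C2 * T := hcr T hT
      _ ≤ C2 * T1 ^ c * ((Real.exp (-c * K) + T ^ (-c)) * T) := h3
      _ ≤ (Q + C2 * T1 ^ c + C2 * Real.exp (c * (k0 + 1))) * (K ^ 2 * μ + (Real.exp (-c * K) + T ^ (-c)) * T) := by
          have h5 : 0 ≤ Q + C2 * Real.exp (c * (k0 + 1)) := by positivity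
          have h6 : 0 ≤ C2 * T1 ^ c := by positivity
          nlinarith [mul_nonneg h5 hA, mul_nonneg h5 hB, mul_nonneg h6 hA]
  · rcases lt_or_ge K ((k0 : ℝ) + 1) with h2 | h2
    · have h3 : 1 ≤ Real.exp (c * (k0 + 1)) * Real.exp (-c * K) := by
        rw [← Real.exp_add]
        apply Real.one_le_exp
        nlinarith
      have h4 : C2 * T ≤ C2 * Real.exp (c * (k0 + 1)) * ((Real.exp (-c * K) + T ^ (-c)) * T) := by
        have h5 : Real.exp (c * (k0 + 1)) * Real.exp (-c * K) ≤ Real.exp (c * (k0 + 1)) * (Real.exp (-c * K) + T ^ (-c)) := by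
          gcongr
          linarith
        calc C2 * T = C2 * 1 * T := by ring
          _ ≤ C2 * (Real.exp (c * (k0 + 1)) * (Real.exp (-c * K) + T ^ (-c))) * T := by
              gcongr
              linarith
          _ = _ := by ring
      calc sg T ≤ C2 * T := hcr T hT
        _ ≤ _ := h4
        _ ≤ (Q + C2 * T1 ^ c + C2 * Real.exp (c * (k0 + 1))) * (K ^ 2 * μ + (Real.exp (-c * K) + T ^ (-c)) * T) := by
            have h5 : 0 ≤ Q + C2 * T1 ^ c := by positivity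
            have h6 : 0 ≤ C2 * Real.exp (c * (k0 + 1)) := by positivity
            nlinarith [mul_nonneg h5 hA, mul_nonneg h5 hB, mul_nonneg h6 hA]
    · have h3 := hmain T K h1 h2
      rw [← hμ] at h3
      refine h3.trans ?_
      have h5 : 0 ≤ C2 * T1 ^ c + C2 * Real.exp (c * (k0 + 1)) := by positivity
      nlinarith [mul_nonneg h5 hA, mul_nonneg h5 hB]

end Pool.Agent.H826
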