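import Pool.Agent.H826.LgG
import Pool.Agent.H826.JenM

set_option autoImplicit false

/-!
# The failures have density zero if and only if almost all zeros are very close to the line
-/

namespace Pool.Agent.H826

open Complex Filter Topology MeasureTheory Metric Set
open scoped ComplexConjugate ENNReal
open Pool.Agent.V11271.LI (Zr reflE)

/-- the heights at which the Jensen polynomial of degree `d` of some shift fails -/
def Bd (d : ℕ) (T : ℝ) : Set ℝ := {t : ℝ | T ≤ t ∧ t ≤ 2 * T ∧ ∃ n : ℕ, ¬ (0 < lag n t ∧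
      ∀ z : ℂ, ∑ j ∈ Finset.range (d + 1), (d.choose j : ℂ) * ((n + j).factorial : ℂ) * (lag (n + j) t : ℂ) * z ^ j = 0 → z.im = 0)}

lemma Fl_sub_Bd (d : ℕ) (T : ℝ) : Fl T ⊆ Bd d T := by
  rintro t ⟨h1, h2, n, h3⟩
  exact ⟨h1, h2, n, fun h4 => absurd h4.1 (not_lt.2 h3.le)⟩

/-- the heights with a failure are covered by intervals around the zeros -/
theorem Bd_cover {d : ℕ} (hd : 2 ≤ d) {T : ℝ} :
    volume (Bd d T) ≤ ENNReal.ofReal (2 * (√(d : ℝ) + √((d : ℝ) - 1)) * (1 + ∑ ρ ∈ ZO T, de ρ)) := by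
  classical
  obtain ⟨c, hc⟩ : ∃ c : ℝ, c = √(d : ℝ) + √((d : ℝ) - 1) := ⟨_, rfl⟩
  have hc1 : 1 ≤ c := by
    rw [hc]
    have hd2 : (2:ℝ) ≤ d := by exact_mod_cast hd
    have h6 : 1 ≤ √(d : ℝ) := Real.one_le_sqrt.2 (by linarith)
    have h7 : 0 ≤ √((d : ℝ) - 1) := Real.sqrt_nonneg _
    linarith
  rw [← hc]
  obtain ⟨E, hE⟩ : ∃ E : Set ℝ, E = ((ZT T).image fun ρ => ga ρ : Finset ℝ) := ⟨_, rfl⟩
  have hE0 : volume E = 0 := by
    rw [hE]
    exact (Finset.finite_toSet _).measure_zero _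
  have hsub : Bd d T ⊆
      (E ∪ (Icc T (T + c) ∪ Icc (2 * T - c) (2 * T))) ∪ ⋃ ρ ∈ ZO T, Icc (ga ρ - c * de ρ) (ga ρ + c * de ρ) := by
    rintro t ⟨h1, h2, n, h4⟩
    by_cases hm : ∃ ρ : Zr, t = ga ρ
    · obtain ⟨ρ, hρ⟩ := hm
      left; left
      rw [hE, Finset.mem_coe, Finset.mem_image]
      refine ⟨ρ, ?_, hρ.symm⟩
      rw [mem_ZT]
      constructor <;> linarith
    · push Not at hm
      rcases lt_or_ge t (T + c) with h5 | h5
      · left; right; left
        exact ⟨h1, h5.le⟩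
      rcases lt_or_ge (2 * T - c) t with h6 | h6
      · left; right; right
        exact ⟨h6.le, h2⟩
      right
      have h7 : ∃ ρ : Zr, |t - ga ρ| < c * |de ρ| := by
        by_contra hcon
        push Not at hcon
        rw [hc] at hcon
        exact h4 (hyp_local hd hm hcon n)
      obtain ⟨ρ', hρ'⟩ := h7
      obtain ⟨ρ, hρ, hpos⟩ : ∃ ρ : Zr, |t - ga ρ| < c * |de ρ| ∧ 0 ≤ de ρ := by
        rcases le_total 0 (de ρ') with h | h
        · exact ⟨ρ', hρ', h⟩
        · refine ⟨reflE ρ', ?_, ?_⟩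
          · rw [ga_refl, de_refl, abs_neg]
            exact hρ'
          · rw [de_refl]
            linarith
      rw [abs_of_nonneg hpos] at hρ
      have hde0 : 0 < de ρ := by
        by_contra hcon
        have : de ρ = 0 := le_antisymm (not_lt.1 hcon) hpos
        rw [this, mul_zero] at hρ
        exact absurd hρ (not_lt.2 (abs_nonneg _))
      have hde1 : de ρ < 1 := by
        unfold de
        linarith [ρ.2.2.2]
      have hcd : c * de ρ ≤ c := by nlinarith
      have h8 := abs_lt.1 hρ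
      rw [mem_iUnion₂]
      refine ⟨ρ, ?_, ⟨by linarith, by linarith⟩⟩
      rw [mem_ZO]
      exact ⟨hde0, by linarith, by linarith⟩
  have hWpos : ∀ ρ ∈ ZO T, 0 < de ρ := fun ρ hρ => (mem_ZO.1 hρ).1
  have hvol : ∀ ρ ∈ ZO T, volume (Icc (ga ρ - c * de ρ) (ga ρ + c * de ρ)) = ENNReal.ofReal (2 * c * de ρ) := by
    intro ρ hρ
    rw [Real.volume_Icc]
    congr 1
    ring
  have hU : volume (⋃ ρ ∈ ZO T, Icc (ga ρ - c * de ρ) (ga ρ + c * de ρ)) ≤ ENNReal.ofReal (∑ ρ ∈ ZO T, 2 * c * de ρ) := by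
    refine (measure_biUnion_finset_le _ _).trans ?_
    rw [Finset.sum_congr rfl hvol, ← ENNReal.ofReal_sum_of_nonneg (fun ρ hρ => by
      have := hWpos ρ hρ
      positivity)]
  have hI : volume (Icc T (T + c) ∪ Icc (2 * T - c) (2 * T)) ≤ ENNReal.ofReal (2 * c) := by
    refine (measure_union_le _ _).trans ?_
    rw [Real.volume_Icc, Real.volume_Icc, ← ENNReal.ofReal_add (by linarith) (by linarith)]
    apply ENNReal.ofReal_le_ofReal
    linarith
  refine (measure_mono hsub).trans ((measure_union_le _ _).trans ?_)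
  refine (add_le_add ((measure_union_le _ _).trans (add_le_add hE0.le hI)) hU).trans ?_
  have hsum0 : 0 ≤ ∑ ρ ∈ ZO T, 2 * c * de ρ := Finset.sum_nonneg fun ρ hρ => by
    have := hWpos ρ hρ
    positivity
  rw [zero_add, ← ENNReal.ofReal_add (by linarith) hsum0]
  apply ENNReal.ofReal_le_ofReal
  rw [← Finset.mul_sum]
  linarith

/-- the measure of the heights with a failure in terms of the truncated distances -/
theorem Bd_upper : ∀ d : ℕ, 2 ≤ d → ∃ C : ℝ, 0 < C ∧ ∀ T K : ℝ, 4 ≤ T → 1 ≤ K →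
    volume (Bd d T) ≤ ENNReal.ofReal (C * (K * sg T + Real.exp (-(K / 4)) * T + 1)) := by
  intro d hd
  obtain ⟨C, hC, hdist⟩ := dist_le
  obtain ⟨c, hc⟩ : ∃ c : ℝ, c = √(d : ℝ) + √((d : ℝ) - 1) := ⟨_, rfl⟩
  have hc1 : 1 ≤ c := by
    rw [hc]
    have hd2 : (2:ℝ) ≤ d := by exact_mod_cast hd
    have h6 : 1 ≤ √(d : ℝ) := Real.one_le_sqrt.2 (by linarith)
    have h7 : 0 ≤ √((d : ℝ) - 1) := Real.sqrt_nonneg _
    linarith
  refine ⟨2 * c * (1 + C), by positivity, fun T K hT hK => (Bd_cover hd).trans ?_⟩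
  apply ENNReal.ofReal_le_ofReal
  rw [← hc]
  have h1 : ∑ ρ ∈ ZO T, de ρ ≤ ∑ ρ ∈ ZO T, Pool.Agent.V11271.LI.mm ρ * de ρ := by
    refine Finset.sum_le_sum fun ρ hρ => ?_
    have h2 := (mem_ZO.1 hρ).1
    have h3 := Pool.Agent.V11271.LI.mm_one_le ρ
    nlinarith
  have h2 := hdist T K hT hK
  have h3 := sg_nonneg (show 1 ≤ T by linarith)
  have h4 : 0 ≤ K * sg T := mul_nonneg (by linarith) h3
  have h5 : 0 ≤ Real.exp (-(K / 4)) * T := by positivity
  have h6 : 1 + ∑ ρ ∈ ZO T, de ρ ≤ (1 + C) * (K * sg T + Real.exp (-(K / 4)) * T + 1) := by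
    have h7 : 0 ≤ C * (K * sg T + 1) := by positivity
    nlinarith
  calc 2 * c * (1 + ∑ ρ ∈ ZO T, de ρ) ≤ 2 * c * ((1 + C) * (K * sg T + Real.exp (-(K / 4)) * T + 1)) := by gcongr
    _ = _ := by ring

/-- the number of the zeros at a distance at least `δ / log T` to the right of the line -/
noncomputable def far (δ T : ℝ) : ℝ := by
  classical
  exact ∑ ρ ∈ (ZO T).filter (fun ρ => δ / Real.log T ≤ de ρ), Pool.Agent.V11271.LI.mm ρ

lemma far_le {δ T : ℝ} (hδ : 0 < δ) (hT : 4 ≤ T) : min δ 1 / Real.log T * far δ T ≤ sg T := by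
  classical
  have hL : 0 < Real.log T := Real.log_pos (by linarith)
  have hm0 : 0 < min δ 1 := lt_min hδ one_pos
  unfold far sg
  rw [Finset.mul_sum]
  calc ∑ ρ ∈ (ZO T).filter (fun ρ => δ / Real.log T ≤ de ρ), min δ 1 / Real.log T * Pool.Agent.V11271.LI.mm ρ ≤
      ∑ ρ ∈ (ZO T).filter (fun ρ => δ / Real.log T ≤ de ρ), Pool.Agent.V11271.LI.mm ρ * min (de ρ) (1 / Real.log T) := by
        refine Finset.sum_le_sum fun ρ hρ => ?_
        rw [Finset.mem_filter] at hρ
        rw [mul_comm]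
        apply mul_le_mul_of_nonneg_left _ (mm_nonneg ρ)
        apply le_min
        · refine le_trans ?_ hρ.2
          gcongr
          exact min_le_left _ _
        · gcongr
          exact min_le_right _ _
    _ ≤ _ := by
        refine Finset.sum_le_sum_of_subset_of_nonneg (Finset.filter_subset _ _) fun ρ hρ _ => ?_
        have h3 := (mem_ZO.1 hρ).1
        have h4 := mm_nonneg ρ
        have h5 : 0 ≤ min (de ρ) (1 / Real.log T) := le_min h3.le (by positivity)
        positivity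

lemma sg_far : ∃ C : ℝ, 0 < C ∧ ∀ δ T : ℝ, 0 < δ → 4 ≤ T → sg T ≤ C * δ * T + far δ T / Real.log T := by
  classical
  obtain ⟨C, hC, hm⟩ := mass_ZT
  refine ⟨C, hC, fun δ T hδ hT => ?_⟩
  have hL : 0 < Real.log T := Real.log_pos (by linarith)
  unfold sg
  rw [← Finset.sum_filter_add_sum_filter_not (ZO T) (fun ρ => δ / Real.log T ≤ de ρ)]
  have h1 : ∑ ρ ∈ (ZO T).filter (fun ρ => δ / Real.log T ≤ de ρ), Pool.Agent.V11271.LI.mm ρ * min (de ρ) (1 / Real.log T) ≤
      far δ T / Real.log T := by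
    unfold far
    rw [Finset.sum_div]
    refine Finset.sum_le_sum fun ρ _ => ?_
    calc Pool.Agent.V11271.LI.mm ρ * min (de ρ) (1 / Real.log T) ≤ Pool.Agent.V11271.LI.mm ρ * (1 / Real.log T) :=
          mul_le_mul_of_nonneg_left (min_le_right _ _) (mm_nonneg ρ)
      _ = _ := by ring
  have h2 : ∑ ρ ∈ (ZO T).filter (fun ρ => ¬ δ / Real.log T ≤ de ρ), Pool.Agent.V11271.LI.mm ρ * min (de ρ) (1 / Real.log T) ≤
      C * δ * T := by
    calc ∑ ρ ∈ (ZO T).filter (fun ρ => ¬ δ / Real.log T ≤ de ρ), Pool.Agent.V11271.LI.mm ρ * min (de ρ) (1 / Real.log T) ≤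
        ∑ ρ ∈ (ZO T).filter (fun ρ => ¬ δ / Real.log T ≤ de ρ), Pool.Agent.V11271.LI.mm ρ * (δ / Real.log T) := by
          refine Finset.sum_le_sum fun ρ hρ => ?_
          rw [Finset.mem_filter, not_le] at hρ
          exact mul_le_mul_of_nonneg_left ((min_le_left _ _).trans hρ.2.le) (mm_nonneg ρ)
      _ ≤ ∑ ρ ∈ ZT T, Pool.Agent.V11271.LI.mm ρ * (δ / Real.log T) := by
          refine Finset.sum_le_sum_of_subset_of_nonneg ?_ fun ρ _ _ => mul_nonneg (mm_nonneg ρ) (by positivity)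
          intro ρ hρ
          rw [Finset.mem_filter, mem_ZO] at hρ
          rw [mem_ZT]
          exact ⟨by linarith [hρ.1.2.1], by linarith [hρ.1.2.2]⟩
      _ = (∑ ρ ∈ ZT T, Pool.Agent.V11271.LI.mm ρ) * (δ / Real.log T) := by rw [Finset.sum_mul]
      _ ≤ (C * (T * Real.log T)) * (δ / Real.log T) := by
          apply mul_le_mul_of_nonneg_right (hm T hT) (by positivity)
      _ = _ := by field_simp
  linarith

/-- the three equivalent statements -/
theorem dens_iff {d : ℕ} (hd : 2 ≤ d) :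
    [∀ δ ε : ℝ, 0 < δ → 0 < ε → ∀ᶠ T : ℝ in atTop, far δ T ≤ ε * (T * Real.log T),
      ∀ ε : ℝ, 0 < ε → ∀ᶠ T : ℝ in atTop, volume (Fl T) ≤ ENNReal.ofReal (ε * T),
      ∀ ε : ℝ, 0 < ε → ∀ᶠ T : ℝ in atTop, volume (Bd d T) ≤ ENNReal.ofReal (ε * T)].TFAE := by
  tfae_have 3 → 2 := by
    intro h ε hε
    filter_upwards [h ε hε] with T hT
    exact (measure_mono (Fl_sub_Bd d T)).trans hT
  tfae_have 1 → 3 := by
    intro h ε hε
    obtain ⟨C, hC, hup⟩ := Bd_upper d hd
    obtain ⟨D, hD, hsg⟩ := sg_far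
    -- choose K
    obtain ⟨K, hK1, hK2⟩ : ∃ K : ℝ, 1 ≤ K ∧ C * Real.exp (-(K / 4)) ≤ ε / 4 := by
      have h1 : Tendsto (fun K : ℝ => C * Real.exp (-(K / 4))) atTop (𝓝 (C * 0)) := by
        apply Tendsto.const_mul
        have h2 : Tendsto (fun K : ℝ => K / 4) atTop atTop := tendsto_id.atTop_div_const (by norm_num)
        exact Real.tendsto_exp_neg_atTop_nhds_zero.comp h2
      rw [mul_zero] at h1
      have h3 := (h1.eventually_le_const (show (0:ℝ) < ε / 4 by positivity)).and (eventually_ge_atTop 1)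
      obtain ⟨K, h4, h5⟩ := h3.exists
      exact ⟨K, h5, h4⟩
    have hK0 : 0 < K := by linarith
    obtain ⟨δ, hδ⟩ : ∃ δ : ℝ, δ = ε / (4 * C * K * D) := ⟨_, rfl⟩
    have hδ0 : 0 < δ := by rw [hδ]; positivity
    obtain ⟨ε1, hε1⟩ : ∃ ε1 : ℝ, ε1 = ε / (4 * C * K) := ⟨_, rfl⟩
    have hε10 : 0 < ε1 := by rw [hε1]; positivity
    filter_upwards [h δ ε1 hδ0 hε10, eventually_ge_atTop (4:ℝ), eventually_ge_atTop (4 * C / ε)] with T h1 hT4 hTC
    have hL : 0 < Real.log T := Real.log_pos (by linarith)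
    refine (hup T K hT4 hK1).trans (ENNReal.ofReal_le_ofReal ?_)
    have h2 := hsg δ T hδ0 hT4
    have h3 : far δ T / Real.log T ≤ ε1 * T := by
      rw [div_le_iff₀ hL]
      linarith
    have h4 : sg T ≤ D * δ * T + ε1 * T := by linarith
    have h5 : C * (K * sg T) ≤ ε / 4 * T + ε / 4 * T := by
      calc C * (K * sg T) ≤ C * (K * (D * δ * T + ε1 * T)) := by gcongr
        _ = _ := by
            rw [hδ, hε1]
            field_simp
    have h6 : C * (Real.exp (-(K / 4)) * T) ≤ ε / 4 * T := by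
      calc C * (Real.exp (-(K / 4)) * T) = (C * Real.exp (-(K / 4))) * T := by ring
        _ ≤ _ := by gcongr
    have h7 : C ≤ ε / 4 * T := by
      rw [div_le_iff₀ hε] at hTC
      linarith
    calc C * (K * sg T + Real.exp (-(K / 4)) * T + 1) = C * (K * sg T) + C * (Real.exp (-(K / 4)) * T) + C := by ring
      _ ≤ _ := by linarith
  tfae_have 2 → 1 := by
    intro h δ ε hδ hε
    obtain ⟨c, C, hc, hC, hlow⟩ := lower_all
    obtain ⟨m, hm⟩ : ∃ m : ℝ, m = min δ 1 := ⟨_, rfl⟩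
    have hm0 : 0 < m := by rw [hm]; exact lt_min hδ one_pos
    obtain ⟨K, hK1, hK2⟩ : ∃ K : ℝ, 1 ≤ K ∧ C * Real.exp (-c * K) ≤ m * ε / 3 := by
      have h1 : Tendsto (fun K : ℝ => C * Real.exp (-c * K)) atTop (𝓝 (C * 0)) := by
        apply Tendsto.const_mul
        have h2 : Tendsto (fun K : ℝ => c * K) atTop atTop := tendsto_id.const_mul_atTop hc
        have h3 := Real.tendsto_exp_neg_atTop_nhds_zero.comp h2
        refine h3.congr fun K => ?_
        simp only [Function.comp_apply, neg_mul]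
      rw [mul_zero] at h1
      have h3 := (h1.eventually_le_const (show (0:ℝ) < m * ε / 3 by positivity)).and (eventually_ge_atTop 1)
      obtain ⟨K, h4, h5⟩ := h3.exists
      exact ⟨K, h5, h4⟩
    have hK0 : 0 < K := by linarith
    obtain ⟨ε1, hε1⟩ : ∃ ε1 : ℝ, ε1 = m * ε / (3 * C * K ^ 2) := ⟨_, rfl⟩
    have hε10 : 0 < ε1 := by rw [hε1]; positivity
    have hTc : ∀ᶠ T : ℝ in atTop, C * T ^ (-c) ≤ m * ε / 3 := by
      have h1 : Tendsto (fun T : ℝ => C * T ^ (-c)) atTop (𝓝 (C * 0)) :=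
        (tendsto_rpow_neg_atTop hc).const_mul C
      rw [mul_zero] at h1
      exact h1.eventually_le_const (by positivity)
    filter_upwards [h ε1 hε10, eventually_ge_atTop (4:ℝ), hTc] with T h1 hT4 hTc
    have hL : 0 < Real.log T := Real.log_pos (by linarith)
    have h2 := hlow T K hT4 hK1
    have h3 : (volume (Fl T)).toReal ≤ ε1 * T := by
      refine ENNReal.toReal_le_of_le_ofReal (by positivity) h1
    have h4 := far_le hδ hT4
    rw [← hm] at h4
    have h5 : C * (K ^ 2 * (volume (Fl T)).toReal) ≤ m * ε / 3 * T := by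
      calc C * (K ^ 2 * (volume (Fl T)).toReal) ≤ C * (K ^ 2 * (ε1 * T)) := by gcongr
        _ = _ := by
            rw [hε1]
            field_simp
    have h6 : sg T ≤ m * ε * T := by
      have h7 : C * ((Real.exp (-c * K) + T ^ (-c)) * T) ≤ 2 * (m * ε / 3) * T := by
        calc C * ((Real.exp (-c * K) + T ^ (-c)) * T) = (C * Real.exp (-c * K) + C * T ^ (-c)) * T := by ring
          _ ≤ (m * ε / 3 + m * ε / 3) * T := by gcongr
          _ = _ := by ring
      calc sg T ≤ _ := h2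
        _ = C * (K ^ 2 * (volume (Fl T)).toReal) + C * ((Real.exp (-c * K) + T ^ (-c)) * T) := by ring
        _ ≤ _ := by linarith
    have h7 : m * far δ T ≤ m * (ε * (T * Real.log T)) := by
      have h8 : m / Real.log T * far δ T ≤ m * ε * T := h4.trans h6
      have h9 : m / Real.log T * far δ T = m * far δ T / Real.log T := by ring
      rw [h9, div_le_iff₀ hL] at h8
      calc m * far δ T ≤ m * ε * T * Real.log T := h8
        _ = _ := by ring
    exact le_of_mul_le_mul_left h7 hm0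
  tfae_finish

/-- the number of the zeros far from the line as a sum over the zeros of zeta -/
lemma far_eq {δ T : ℝ} (hδ : 0 < δ) (hT : 4 ≤ T) :
    far δ T = ((∑ᶠ s ∈ {s : ℂ | riemannZeta s = 0 ∧ T ≤ s.im ∧ s.im ≤ 2 * T ∧ 1 / 2 + δ / Real.log T ≤ s.re},
      analyticOrderNatAt riemannZeta s : ℕ) : ℝ) := by
  classical
  have hL : 0 < Real.log T := Real.log_pos (by linarith)
  have hset : {s : ℂ | riemannZeta s = 0 ∧ T ≤ s.im ∧ s.im ≤ 2 * T ∧ 1 / 2 + δ / Real.log T ≤ s.re} =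
      ((((ZO T).filter (fun ρ => δ / Real.log T ≤ de ρ)).image (fun ρ : Zr => (ρ : ℂ)) : Finset ℂ) : Set ℂ) := by
    ext s
    rw [Finset.mem_coe, Finset.mem_image]
    constructor
    · rintro ⟨h1, h2, h3, h4⟩
      have h5 : 0 < δ / Real.log T := by positivity
      have h6 : s.re < 1 := by
        by_contra hcon
        exact riemannZeta_ne_zero_of_one_le_re (not_lt.1 hcon) h1
      refine ⟨⟨s, h1, by linarith, h6⟩, ?_, rfl⟩
      rw [Finset.mem_filter, mem_ZO]
      unfold de ga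
      exact ⟨⟨by simp only; linarith, h2, h3⟩, by simp only; linarith⟩
    · rintro ⟨ρ, hρ, rfl⟩
      rw [Finset.mem_filter, mem_ZO] at hρ
      unfold de ga at hρ
      exact ⟨ρ.2.1, hρ.1.2.1, hρ.1.2.2, by linarith [hρ.2]⟩
  rw [hset, finsum_mem_coe_finset, Finset.sum_image (fun a _ b _ hab => Subtype.ext hab)]
  unfold far
  rw [Nat.cast_sum]
  rfl

/-- the sum of the truncated distances as a sum over the zeros of zeta -/
lemma sg_eq {T : ℝ} :
    sg T = ∑ᶠ s ∈ {s : ℂ | riemannZeta s = 0 ∧ T ≤ s.im ∧ s.im ≤ 2 * T ∧ 1 / 2 < s.re},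
      (analyticOrderNatAt riemannZeta s : ℝ) * min (s.re - 1 / 2) (1 / Real.log T) := by
  classical
  have hset : {s : ℂ | riemannZeta s = 0 ∧ T ≤ s.im ∧ s.im ≤ 2 * T ∧ 1 / 2 < s.re} =
      (((ZO T).image (fun ρ : Zr => (ρ : ℂ)) : Finset ℂ) : Set ℂ) := by
    ext s
    rw [Finset.mem_coe, Finset.mem_image]
    constructor
    · rintro ⟨h1, h2, h3, h4⟩
      have h6 : s.re < 1 := by
        by_contra hcon
        exact riemannZeta_ne_zero_of_one_le_re (not_lt.1 hcon) h1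
      refine ⟨⟨s, h1, by linarith, h6⟩, ?_, rfl⟩
      rw [mem_ZO]
      unfold de ga
      exact ⟨by simp only; linarith, h2, h3⟩
    · rintro ⟨ρ, hρ, rfl⟩
      rw [mem_ZO] at hρ
      unfold de ga at hρ
      exact ⟨ρ.2.1, hρ.2.1, hρ.2.2, by linarith [hρ.1]⟩
  rw [hset, finsum_mem_coe_finset, Finset.sum_image (fun a _ b _ hab => Subtype.ext hab)]
  rfl

end Pool.Agent.H826
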